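import Mathlib

set_option autoImplicit false

namespace Pool.Agent.H.MP_40bd32_nt.helper88

theorem card_mod_image {A : Finset ℕ} {m n : ℕ} (hmn : m ∣ n) (hn : 0 < n)
    (hA : ∀ k ∈ A, ∀ k' ∈ A, k ≤ k' → m ∣ k' - k) :
    (A.image (fun k => k % n)).card ≤ n / m := by
  classical
  have hm : 0 < m := Nat.pos_of_dvd_of_pos hmn hn
  have h1 : ((A.image (fun k => k % n))).card ≤ (Finset.range (n / m)).card := by
    refine Finset.card_le_card_of_injOn (fun r => r / m) ?_ ?_
    · intro r hr
      obtain ⟨k, _, rfl⟩ := Finset.mem_image.1 (Finset.mem_coe.1 hr)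
      have h2 : k % n < n := Nat.mod_lt _ hn
      exact Finset.mem_coe.2 (Finset.mem_range.2 (Nat.div_lt_div_of_lt_of_dvd hmn h2))
    · intro r hr r' hr' h
      obtain ⟨k, hk, rfl⟩ := Finset.mem_image.1 (Finset.mem_coe.1 hr)
      obtain ⟨k', hk', rfl⟩ := Finset.mem_image.1 (Finset.mem_coe.1 hr')
      have h3 : k % n % m = k % m := Nat.mod_mod_of_dvd k hmn
      have h4 : k' % n % m = k' % m := Nat.mod_mod_of_dvd k' hmn
      have h5 : k % m = k' % m := by
        rcases Nat.le_total k k' with hkk | hkk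
        · exact (Nat.modEq_iff_dvd' hkk).2 (hA k hk k' hk' hkk)
        · exact ((Nat.modEq_iff_dvd' hkk).2 (hA k' hk' k hk hkk)).symm
      have h : k % n / m = k' % n / m := h
      show k % n = k' % n
      rw [← Nat.div_add_mod (k % n) m, ← Nat.div_add_mod (k' % n) m, h, h3, h4, h5]
  rwa [Finset.card_range] at h1

theorem card_spaced_real {A : Finset ℕ} {n : ℕ} (hn : 0 < n) {W : ℝ} (hW : 0 ≤ W)
    (hdiv : ∀ k ∈ A, ∀ k' ∈ A, k ≤ k' → n ∣ k' - k)
    (hdiam : ∀ k ∈ A, ∀ k' ∈ A, k ≤ k' → ((k' - k : ℕ) : ℝ) ≤ W) :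
    (A.card : ℝ) ≤ 1 + W / n := by
  classical
  have hnr : (0 : ℝ) < n := by exact_mod_cast hn
  rcases A.eq_empty_or_nonempty with rfl | hne
  · simp only [Finset.card_empty, Nat.cast_zero]
    positivity
  set k0 := A.min' hne with hk0
  have hk0A : k0 ∈ A := A.min'_mem hne
  have hk0le : ∀ k ∈ A, k0 ≤ k := fun k hk => A.min'_le k hk
  have h1 : A.card ≤ (Finset.range (⌊W / n⌋₊ + 1)).card := by
    refine Finset.card_le_card_of_injOn (fun k => (k - k0) / n) ?_ ?_
    · intro k hk
      simp only [Finset.coe_range, Set.mem_Iio]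
      have h2 := hdiam k0 hk0A k hk (hk0le k hk)
      have h3 : (((k - k0) / n : ℕ) : ℝ) ≤ W / n := by
        refine (@Nat.cast_div_le ℝ _ _ _ _ _).trans ?_
        exact div_le_div_of_nonneg_right h2 hnr.le
      have := Nat.le_floor h3
      omega
    · intro k hk k' hk' h
      simp only at h
      have h2 := hdiv k0 hk0A k hk (hk0le k hk)
      have h3 := hdiv k0 hk0A k' hk' (hk0le k' hk')
      have h4 := Nat.div_mul_cancel h2
      have h5 := Nat.div_mul_cancel h3
      have h6 := hk0le k hk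
      have h7 := hk0le k' hk'
      rw [h] at h4
      omega
  rw [Finset.card_range] at h1
  have h2 : (A.card : ℝ) ≤ ((⌊W / n⌋₊ + 1 : ℕ) : ℝ) := by exact_mod_cast h1
  push_cast at h2
  have h3 : (⌊W / n⌋₊ : ℝ) ≤ W / n := Nat.floor_le (by positivity)
  linarith

/-- if `g` determines `f` then `f` has at most as many values as `g` -/
theorem card_image_le_of_det {α β δ : Type*} [DecidableEq β] [DecidableEq δ] {A : Finset α}
    {f : α → β} {g : α → δ} (h : ∀ a ∈ A, ∀ a' ∈ A, g a = g a' → f a = f a') :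
    (A.image f).card ≤ (A.image g).card := by
  classical
  have h0 : (A.image (fun a => (f a, g a))).card = (A.image g).card := by
    rw [← Finset.card_image_of_injOn (s := A.image (fun a => (f a, g a))) (f := Prod.snd)]
    · rw [Finset.image_image]
      rfl
    · intro y hy y' hy' e
      obtain ⟨a, ha, rfl⟩ := Finset.mem_image.1 (Finset.mem_coe.1 hy)
      obtain ⟨a', ha', rfl⟩ := Finset.mem_image.1 (Finset.mem_coe.1 hy')
      have e' : g a = g a' := e
      have := h a ha a' ha' e'
      show (f a, g a) = (f a', g a')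
      rw [e', this]
  have h1 : A.image f = (A.image (fun a => (f a, g a))).image Prod.fst := by
    rw [Finset.image_image]
    rfl
  rw [h1, ← h0]
  exact Finset.card_image_le

end Pool.Agent.H.MP_40bd32_nt.helper88
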