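import Mathlib
import Pool.Prelude.Def_F_f86fdde6

set_option autoImplicit false

open N4baffcff

namespace Pool.Agent.H.MP_40bd32_nt.helper88

/-- number of decimal digits -/
noncomputable def len (m : ℕ) : ℕ := (Nat.digits 10 m).length

/-- the number formed by the first `v` digits -/
noncomputable def top (v m : ℕ) : ℕ := m / 10 ^ (len m - v)

theorem lt_pow_len (m : ℕ) : m < 10 ^ len m := Nat.lt_base_pow_length_digits (by norm_num)

theorem pow_len_le {m : ℕ} (hm : m ≠ 0) : 10 ^ len m ≤ 10 * m :=
  Nat.base_pow_length_digits_le 10 m (by norm_num) hm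

theorem le_len_of_pow_le {v m : ℕ} (h : 10 ^ v ≤ m) : v ≤ len m := by
  have h1 := lt_of_le_of_lt h (lt_pow_len m)
  exact ((Nat.pow_lt_pow_iff_right (by norm_num)).1 h1).le

theorem top_lt {v m : ℕ} (hv : v ≤ len m) : top v m < 10 ^ v := by
  unfold top
  rw [Nat.div_lt_iff_lt_mul (by positivity), ← pow_add]
  have : v + (len m - v) = len m := by omega
  rw [this]
  exact lt_pow_len m

theorem le_top {v m : ℕ} (hm : m ≠ 0) (hv : v + 1 ≤ len m) : 10 ^ v ≤ top (v + 1) m := by
  unfold top
  rw [Nat.le_div_iff_mul_le (by positivity), ← pow_add]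
  have h1 := pow_len_le hm
  have h2 : len m = (v + (len m - (v + 1))) + 1 := by omega
  rw [h2, pow_succ] at h1
  have h3 : v + (v + (len m - (v + 1)) + 1 - (v + 1)) = v + (len m - (v + 1)) := by omega
  omega

theorem top_mul_le (v m : ℕ) : top v m * 10 ^ (len m - v) ≤ m := Nat.div_mul_le_self _ _

theorem lt_top_mul (v m : ℕ) : m < (top v m + 1) * 10 ^ (len m - v) := by
  have := Nat.lt_mul_div_succ m (show 0 < 10 ^ (len m - v) by positivity)
  unfold top
  rw [mul_comm]
  exact this

theorem top_eq_ofDigits {v m : ℕ} (hp : IsDecimalPalindrome m) :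
    top v m = Nat.ofDigits 10 ((Nat.digits 10 m).take v).reverse := by
  have h1 : (Nat.digits 10 m).reverse = Nat.digits 10 m := (show _ = _ from hp).symm
  unfold top len
  rw [Nat.self_div_pow_eq_ofDigits_drop _ _ (by norm_num), List.reverse_take, h1]

theorem low_eq_of_top_eq {v m m' : ℕ} (hp : IsDecimalPalindrome m) (hp' : IsDecimalPalindrome m')
    (hv : v ≤ len m) (hv' : v ≤ len m') (h : top v m = top v m') :
    m % 10 ^ v = m' % 10 ^ v := by
  rw [top_eq_ofDigits hp, top_eq_ofDigits hp'] at h
  have hl : ((Nat.digits 10 m).take v).reverse = ((Nat.digits 10 m').take v).reverse := by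
    refine Nat.ofDigits_inj_of_len_eq (b := 10) (by norm_num) ?_ ?_ ?_ h
    · rw [List.length_reverse, List.length_reverse, List.length_take, List.length_take]
      unfold len at hv hv'
      omega
    · intro d hd
      rw [List.mem_reverse] at hd
      exact Nat.digits_lt_base (by norm_num) (List.mem_of_mem_take hd)
    · intro d hd
      rw [List.mem_reverse] at hd
      exact Nat.digits_lt_base (by norm_num) (List.mem_of_mem_take hd)
  have hl2 := List.reverse_injective hl
  rw [Nat.self_mod_pow_eq_ofDigits_take _ _ (by norm_num),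
    Nat.self_mod_pow_eq_ofDigits_take _ _ (by norm_num), hl2]

theorem not_ten_dvd {m : ℕ} (hm : m ≠ 0) (hp : IsDecimalPalindrome m) : ¬ 10 ∣ m := by
  intro hd
  have hL : 1 ≤ len m := by
    by_contra hc
    have h0 : len m = 0 := by omega
    have := lt_pow_len m
    rw [h0] at this
    simp at this
    exact hm this
  have h1 : top 1 m = Nat.ofDigits 10 ((Nat.digits 10 m).take 1).reverse := top_eq_ofDigits hp
  have h2 : m % 10 ^ 1 = Nat.ofDigits 10 ((Nat.digits 10 m).take 1) :=
    Nat.self_mod_pow_eq_ofDigits_take _ _ (by norm_num)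
  have h3 : ((Nat.digits 10 m).take 1).reverse = (Nat.digits 10 m).take 1 := by
    rcases hD : Nat.digits 10 m with _ | ⟨a, t⟩ <;> simp
  rw [h3, ← h2] at h1
  have h4 := le_top (v := 0) hm (by simpa using hL)
  simp only [pow_zero, zero_add] at h4
  rw [h1] at h4
  have : m % 10 ^ 1 = 0 := by
    rw [pow_one]
    exact Nat.mod_eq_zero_of_dvd hd
  omega

end Pool.Agent.H.MP_40bd32_nt.helper88
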