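import Pool.Agent.H.MP_40bd32_nt.helper88.Near
import Pool.Agent.H.MP_40bd32_nt.helper88.Cards

set_option autoImplicit false

open N4baffcff

namespace Pool.Agent.H.MP_40bd32_nt.helper88

variable {x b c : ℕ}

/-- all `x^k`, `k ∈ A`, are palindromes with at least `j` digits, and `A` has diameter `≤ K` -/
def PS (x j K : ℕ) (A : Finset ℕ) : Prop :=
  ∀ k ∈ A, IsDecimalPalindrome (x ^ k) ∧ 10 ^ j ≤ x ^ k ∧ ∀ k' ∈ A, k' ≤ k + K

theorem PS.mono {x i j K : ℕ} {A : Finset ℕ} (h : PS x j K A) (hij : i ≤ j) : PS x i K A :=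
  fun k hk => ⟨(h k hk).1, (Nat.pow_le_pow_right (by norm_num) hij).trans (h k hk).2.1, (h k hk).2.2⟩

theorem PS.sub {x j K : ℕ} {A B : Finset ℕ} (h : PS x j K A) (hB : B ⊆ A) : PS x j K B :=
  fun k hk => ⟨(h k (hB hk)).1, (h k (hB hk)).2.1, fun k' hk' => (h k (hB hk)).2.2 k' (hB hk')⟩

theorem card_le_real {α β : Type*} [DecidableEq β] {s : Finset α} {f : α → β} {B : ℝ}
    (h : ∀ a ∈ s.image f, ((s.filter (fun k => f k = a)).card : ℝ) ≤ B) :
    (s.card : ℝ) ≤ (s.image f).card * B := by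
  rw [Finset.card_eq_sum_card_image f s]
  push_cast
  calc (∑ a ∈ s.image f, ((s.filter (fun k => f k = a)).card : ℝ)) ≤ ∑ _a ∈ s.image f, B :=
        Finset.sum_le_sum h
    _ = (s.image f).card * B := by rw [Finset.sum_const, nsmul_eq_mul]

/-- on a residue class mod `d` the first `z` digits of `x^k`, `k0 ≤ k ≤ k0 + K`, take at most 3
values -/
theorem top3 {x d z K : ℕ} {P : ℤ} {g : ℝ} (hx : 2 ≤ x)
    (hg : |(d : ℝ) * Real.logb 10 x - P| ≤ d * g) (hg0 : 0 ≤ g)
    (hs : 40 * (K * g) * 10 ^ z ≤ 1) (hdK : d ≤ K) (k0 : ℕ) :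
    ∃ s : Finset ℕ, s.card ≤ 3 ∧ ∀ k, k0 ≤ k → k ≤ k0 + K → k % d = k0 % d →
      z ≤ len (x ^ k) → top z (x ^ k) ∈ s := by
  rcases Nat.eq_zero_or_pos z with rfl | hz
  · refine ⟨{0}, by simp, fun k _ _ _ _ => ?_⟩
    have h1 : top 0 (x ^ k) < 10 ^ 0 := top_lt (Nat.zero_le _)
    have h2 : top 0 (x ^ k) = 0 := by
      rw [pow_zero] at h1
      omega
    rw [h2]
    exact Finset.mem_singleton_self 0
  · obtain ⟨v, rfl⟩ : ∃ v, z = v + 1 := ⟨z - 1, by omega⟩
    obtain ⟨s, hs1, hs2⟩ := top_values (x := x) (d := d) (v := v) (T := K / d + 1) (k0 := k0) hx hg (by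
      have h1 : ((K / d : ℕ) : ℝ) * d ≤ K := by
        have := Nat.div_mul_le_self K d
        exact_mod_cast this
      have h2 : (d : ℝ) ≤ K := by exact_mod_cast hdK
      have h3 : 20 * ((K / d + 1 : ℕ) : ℝ) * 10 ^ (v + 1) * (d * g)
          = 20 * ((((K / d : ℕ) : ℝ) * d + d) * g) * 10 ^ (v + 1) := by
        push_cast
        ring
      rw [h3]
      have h4 : (((K / d : ℕ) : ℝ) * d + d) * g ≤ (2 * K) * g :=
        mul_le_mul_of_nonneg_right (by linarith) hg0
      calc 20 * ((((K / d : ℕ) : ℝ) * d + d) * g) * 10 ^ (v + 1)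
          ≤ 20 * ((2 * K) * g) * 10 ^ (v + 1) :=
            mul_le_mul_of_nonneg_right (by linarith) (by positivity)
        _ = 40 * (K * g) * 10 ^ (v + 1) := by ring
        _ ≤ 1 := hs)
    refine ⟨s, hs1, fun k hk0 hk hkρ hlen => ?_⟩
    have hdv : d ∣ k - k0 := (Nat.modEq_iff_dvd' hk0).1 hkρ.symm
    have e : k0 + d * ((k - k0) / d) = k := by
      rw [Nat.mul_div_cancel' hdv]
      omega
    have := hs2 ((k - k0) / d) (by
      have := Nat.div_le_div_right (c := d) (show k - k0 ≤ K by omega)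
      omega)
    rw [e] at this
    exact this hlen

/-- the fibre bound -/
theorem fib (h : Good x b c) {d : ℕ} (hd : 0 < d) {P : ℤ} {g : ℝ}
    (hg : |Real.logb 10 x - P / d| = g) (hg0 : 0 < g) {z j K : ℕ} (hzj : z ≤ j)
    (hs : 40 * (K * g) * 10 ^ z ≤ 1) (hdK : d ≤ K) {A : Finset ℕ} (hA : PS x j K A)
    (hr : ∀ k ∈ A, (10 / b) ^ j ∣ x ^ k) {W : ℝ} (hW0 : 0 ≤ W)
    (hW : ∀ y : ℝ, y ≤ K → y ≤ 5 / 10 ^ j / g → y ≤ W) (ρ : ℕ) :
    ((A.filter (fun k => k % d = ρ)).card : ℝ) ≤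
      3 * (((La x b d j / La x b d z : ℕ) : ℝ) * (1 + W / La x b d j)) := by
  classical
  have hdr : (0 : ℝ) < d := by exact_mod_cast hd
  have hgd : |(d : ℝ) * Real.logb 10 x - P| = d * g := by
    have : (d : ℝ) * Real.logb 10 x - P = d * (Real.logb 10 x - P / d) := by
      field_simp
    rw [this, abs_mul, hg, abs_of_pos hdr]
  set A' := A.filter (fun k => k % d = ρ) with hA'
  have hmem : ∀ k ∈ A', k ∈ A ∧ k % d = ρ := fun k hk => Finset.mem_filter.1 hk
  rcases A'.eq_empty_or_nonempty with hne | hne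
  · rw [hne, Finset.card_empty]
    push_cast
    positivity
  set k0 := A'.min' hne with hk0
  have hk0A : k0 ∈ A' := A'.min'_mem hne
  have hk0le : ∀ k ∈ A', k0 ≤ k := fun k hk => A'.min'_le k hk
  obtain ⟨s, hs1, hs2⟩ := top3 (x := x) (d := d) (z := z) (K := K) h.hx hgd.le hg0.le hs hdK k0
  set B : ℝ := ((La x b d j / La x b d z : ℕ) : ℝ) * (1 + W / La x b d j) with hB
  have hLj : 0 < La x b d j := La_pos h hd j
  have hB0 : 0 ≤ B := by positivity
  have hmod : ∀ {n : ℕ} {k k' : ℕ}, k ≤ k' → k % n = k' % n → n ∣ k' - k := by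
    intro n k k' hkk he
    exact (Nat.modEq_iff_dvd' hkk).1 he
  have key : ∀ τ ∈ A'.image (fun k => top z (x ^ k)),
      ((A'.filter (fun k => top z (x ^ k) = τ)).card : ℝ) ≤ B := by
    intro τ _
    set Aτ := A'.filter (fun k => top z (x ^ k) = τ) with hAτ
    have hmτ : ∀ k ∈ Aτ, k ∈ A ∧ k % d = ρ ∧ top z (x ^ k) = τ := fun k hk => by
      obtain ⟨h1, h2⟩ := Finset.mem_filter.1 hk
      exact ⟨(hmem k h1).1, (hmem k h1).2, h2⟩
    have hLz : ∀ k ∈ Aτ, ∀ k' ∈ Aτ, k ≤ k' → La x b d z ∣ k' - k := by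
      intro k hk k' hk' hkk
      obtain ⟨a1, a2, a3⟩ := hmτ k hk
      obtain ⟨b1, b2, b3⟩ := hmτ k' hk'
      have p := hA.mono hzj k a1
      have p' := hA.mono hzj k' b1
      exact Nat.lcm_dvd (hmod hkk (by rw [a2, b2]))
        (od_dvd_of_top_eq h p.1 p'.1 hkk p.2.1 (by rw [a3, b3]))
    have h1 := card_mod_image (La_mono h hzj) hLj hLz
    have h2 : (Aτ.card : ℝ) ≤ (Aτ.image (fun k => k % La x b d j)).card * (1 + W / La x b d j) := by
      refine card_le_real fun r _ => ?_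
      refine card_spaced_real hLj hW0 ?_ ?_
      · intro k hk k' hk' hkk
        have a := (Finset.mem_filter.1 hk).2
        have a' := (Finset.mem_filter.1 hk').2
        exact hmod hkk (by rw [a, a'])
      · intro k hk k' hk' hkk
        obtain ⟨a0, a⟩ := Finset.mem_filter.1 hk
        obtain ⟨b0, a'⟩ := Finset.mem_filter.1 hk'
        obtain ⟨a1, a2, a3⟩ := hmτ k a0
        obtain ⟨b1, b2, b3⟩ := hmτ k' b0
        have hdiv : La x b d j ∣ k' - k := hmod hkk (by rw [a, a'])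
        have hd1 : d ∣ k' - k := dvd_trans (Nat.dvd_lcm_left _ _) hdiv
        have ho : od x b j ∣ k' - k := dvd_trans (Nat.dvd_lcm_right _ _) hdiv
        have p := hA k a1
        have p' := hA k' b1
        have hn := near_pal h p.1 p'.1 hkk p.2.1 (hr k a1) ho
        set D : ℕ := k' - k with hD
        have hDK : (D : ℝ) ≤ K := by
          have : D ≤ K := by have := p.2.2 k' b1; omega
          exact_mod_cast this
        obtain ⟨q, hq⟩ := hd1
        have hQ : (D : ℝ) * Real.logb 10 x - ((q * P : ℤ) : ℝ)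
            = D * (Real.logb 10 x - P / d) := by
          rw [hq]
          push_cast
          field_simp
        have hQa : |(D : ℝ) * Real.logb 10 x - ((q * P : ℤ) : ℝ)| = D * g := by
          rw [hQ, abs_mul, hg, abs_of_nonneg (by positivity)]
        have hKg : (D : ℝ) * g ≤ 1 / 40 := by
          have h3 : (D : ℝ) * g ≤ K * g := mul_le_mul_of_nonneg_right hDK hg0.le
          have h4 : (1 : ℝ) ≤ 10 ^ z := one_le_pow₀ (by norm_num)
          have h5 : 40 * (K * g) ≤ 40 * (K * g) * 10 ^ z :=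
            le_mul_of_one_le_right (by positivity) h4
          linarith
        refine hW _ hDK ?_
        rw [le_div_iff₀ hg0]
        rcases Nat.eq_zero_or_pos j with rfl | hj
        · rw [pow_zero]
          linarith
        · have h10 : (5 : ℝ) / 10 ^ j ≤ 1 / 2 := by
            have : (10 : ℝ) ^ 1 ≤ 10 ^ j := pow_le_pow_right₀ (by norm_num) hj
            rw [div_le_iff₀ (by positivity)]
            linarith
          have heq : ((len (x ^ k') : ℤ) - (len (x ^ k) : ℤ) : ℤ) = (q : ℤ) * P := by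
            have h6 : |((((len (x ^ k') : ℤ) - (len (x ^ k) : ℤ) : ℤ) : ℝ) - ((q * P : ℤ) : ℝ))| < 1 := by
              have e : ((((len (x ^ k') : ℤ) - (len (x ^ k) : ℤ) : ℤ) : ℝ) - ((q * P : ℤ) : ℝ))
                  = ((D : ℝ) * Real.logb 10 x - ((q * P : ℤ) : ℝ))
                    - ((D : ℝ) * Real.logb 10 x - (((len (x ^ k') : ℤ) - (len (x ^ k) : ℤ) : ℤ) : ℝ)) := by
                ring
              rw [e]
              refine lt_of_le_of_lt (abs_sub _ _) ?_
              rw [hQa]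
              linarith
            rw [← Int.cast_sub, ← Int.cast_abs] at h6
            have h7 : |((len (x ^ k') : ℤ) - (len (x ^ k) : ℤ)) - (q : ℤ) * P| < 1 := by
              exact_mod_cast h6
            have h8 := Int.abs_lt_one_iff.1 h7
            linarith
          rw [heq, hQa] at hn
          exact hn
    calc (Aτ.card : ℝ) ≤ (Aτ.image (fun k => k % La x b d j)).card * (1 + W / La x b d j) := h2
      _ ≤ B := by
          rw [hB]
          refine mul_le_mul_of_nonneg_right ?_ (by positivity)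
          exact_mod_cast h1
  have h3 := card_le_real key
  have h4 : (A'.image (fun k => top z (x ^ k))).card ≤ 3 := by
    refine (Finset.card_le_card ?_).trans hs1
    intro τ hτ
    obtain ⟨k, hk, rfl⟩ := Finset.mem_image.1 hτ
    obtain ⟨a1, a2⟩ := hmem k hk
    have p := hA.mono hzj k a1
    exact hs2 k (hk0le k hk) ((hA k0 (hmem k0 hk0A).1).2.2 k a1)
      (by rw [a2, (hmem k0 hk0A).2]) (le_len_pow h.hx le_rfl p.2.1)
  have h5 : ((A'.image (fun k => top z (x ^ k))).card : ℝ) ≤ 3 := by exact_mod_cast h4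
  exact h3.trans (mul_le_mul_of_nonneg_right h5 hB0)

/-- when the last `z` digits of the `x^k` are all different -/
theorem fib_distinct (h : Good x b c) {d : ℕ} (hd : 0 < d) {P : ℤ} {g : ℝ}
    (hg : |Real.logb 10 x - P / d| = g) (hg0 : 0 < g) {z K : ℕ}
    (hs : 40 * (K * g) * 10 ^ z ≤ 1) (hdK : d ≤ K) {A : Finset ℕ} (hA : PS x z K A)
    (hr : ∀ k ∈ A, ¬ (10 / b) ^ z ∣ x ^ k) (ρ : ℕ) :
    ((A.filter (fun k => k % d = ρ)).card : ℝ) ≤ 3 := by
  classical
  have hdr : (0 : ℝ) < d := by exact_mod_cast hd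
  have hgd : |(d : ℝ) * Real.logb 10 x - P| = d * g := by
    have : (d : ℝ) * Real.logb 10 x - P = d * (Real.logb 10 x - P / d) := by
      field_simp
    rw [this, abs_mul, hg, abs_of_pos hdr]
  set A' := A.filter (fun k => k % d = ρ) with hA'
  have hmem : ∀ k ∈ A', k ∈ A ∧ k % d = ρ := fun k hk => Finset.mem_filter.1 hk
  rcases A'.eq_empty_or_nonempty with hne | hne
  · rw [hne, Finset.card_empty]
    norm_num
  set k0 := A'.min' hne with hk0
  have hk0A : k0 ∈ A' := A'.min'_mem hne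
  have hk0le : ∀ k ∈ A', k0 ≤ k := fun k hk => A'.min'_le k hk
  obtain ⟨s, hs1, hs2⟩ := top3 (x := x) (d := d) (z := z) (K := K) h.hx hgd.le hg0.le hs hdK k0
  have h1 : A'.card ≤ s.card := by
    refine Finset.card_le_card_of_injOn (fun k => top z (x ^ k)) ?_ ?_
    · intro k hk
      obtain ⟨a1, a2⟩ := Finset.mem_filter.1 (Finset.mem_coe.1 hk)
      have p := hA k a1
      exact Finset.mem_coe.2 (hs2 k (hk0le k (Finset.mem_coe.1 hk))
        ((hA k0 (hmem k0 hk0A).1).2.2 k a1)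
        (by rw [a2, (hmem k0 hk0A).2]) (le_len_pow h.hx le_rfl p.2.1))
    · intro k hk k' hk' e
      obtain ⟨a1, a2⟩ := Finset.mem_filter.1 (Finset.mem_coe.1 hk)
      obtain ⟨b1, b2⟩ := Finset.mem_filter.1 (Finset.mem_coe.1 hk')
      have p := hA k a1
      have p' := hA k' b1
      have e' : top z (x ^ k) = top z (x ^ k') := e
      rcases lt_trichotomy k k' with hlt | heq | hgt
      · exact absurd (rest_dvd_of_top_eq h p.1 p'.1 hlt p.2.1 e') (hr k a1)
      · exact heq
      · exact absurd (rest_dvd_of_top_eq h p'.1 p.1 hgt p'.2.1 e'.symm) (hr k' b1)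
  exact_mod_cast h1.trans hs1

end Pool.Agent.H.MP_40bd32_nt.helper88
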