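import Pool.Agent.H.MP_40bd32_nt.helper88.MainC

set_option autoImplicit false

open N4baffcff

namespace Pool.Agent.H.MP_40bd32_nt.helper88

theorem cc_le {p x : ℕ} (hx : 2 ≤ x) : cc p x ≤ x ^ 4 := by
  have h1 : 2 ≤ x ^ 4 := le_trans hx (Nat.le_self_pow (by norm_num) x)
  have h2 := Nat.le_of_dvd (by omega) (cc_dvd p x)
  omega

theorem exists_good {x : ℕ} (hx : 2 ≤ x) (h10 : ¬ 10 ∣ x) : ∃ b c, Good x b c := by
  by_cases h2 : 2 ∣ x
  · have h5 : ¬ 5 ∣ x := fun h5 => h10 (by omega)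
    refine ⟨5, cc 5 x, hx, Or.inr (Or.inl rfl), ?_, ?_, cc_pos (by norm_num), cc_le hx, ?_⟩
    · exact ((Nat.Prime.coprime_iff_not_dvd (by norm_num)).2 h5).symm
    · simpa using h2
    · intro D j hD h
      exact pow_dvd_cc_mul (Or.inr rfl) h5 hx hD h
  · by_cases h5 : 5 ∣ x
    · refine ⟨2, cc 2 x, hx, Or.inl rfl, ?_, ?_, cc_pos (by norm_num), cc_le hx, ?_⟩
      · exact ((Nat.Prime.coprime_iff_not_dvd (by norm_num)).2 h2).symm
      · simpa using h5
      · intro D j hD h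
        exact pow_dvd_cc_mul (Or.inl rfl) h2 hx hD h
    · have hcp : Nat.Coprime (cc 2 x) (cc 5 x) := by
        unfold cc
        exact Nat.Coprime.pow _ _ (by norm_num)
      refine ⟨10, cc 2 x * cc 5 x, hx, Or.inr (Or.inr rfl), ?_, ?_,
        Nat.mul_pos (cc_pos (by norm_num)) (cc_pos (by norm_num)), ?_, ?_⟩
      · have e : (10 : ℕ) = 2 * 5 := by norm_num
        rw [e]
        exact Nat.Coprime.mul_right ((Nat.Prime.coprime_iff_not_dvd (by norm_num)).2 h2).symm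
          ((Nat.Prime.coprime_iff_not_dvd (by norm_num)).2 h5).symm
      · norm_num
      · have h1 : 2 ≤ x ^ 4 := le_trans hx (Nat.le_self_pow (by norm_num) x)
        have h3 := Nat.le_of_dvd (by omega) (hcp.mul_dvd_of_dvd_of_dvd (cc_dvd 2 x) (cc_dvd 5 x))
        omega
      · intro D j hD h
        have e : (10 : ℕ) ^ j = 2 ^ j * 5 ^ j := by
          rw [← mul_pow]
          norm_num
        have h2' : 2 ^ j ∣ cc 2 x * D :=
          pow_dvd_cc_mul (Or.inl rfl) h2 hx hD (dvd_trans (by rw [e]; exact Nat.dvd_mul_right _ _) h)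
        have h5' : 5 ^ j ∣ cc 5 x * D :=
          pow_dvd_cc_mul (Or.inr rfl) h5 hx hD (dvd_trans (by rw [e]; exact Nat.dvd_mul_left _ _) h)
        rw [e]
        refine Nat.Coprime.mul_dvd_of_dvd_of_dvd (Nat.Coprime.pow _ _ (by norm_num)) ?_ ?_
        · refine dvd_trans h2' ⟨cc 5 x, by ring⟩
        · refine dvd_trans h5' ⟨cc 2 x, by ring⟩

/-- In every window `M < k ≤ M + K` at most `10^7 √K` of the numbers `x^k` are palindromes. -/
theorem exponent_bound {x K : ℕ} (M : ℕ) (hx : 2 ≤ x) (hK : 1 ≤ K) :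
    (({k : ℕ | M < k ∧ k ≤ M + K ∧ IsDecimalPalindrome (x ^ k)}.ncard : ℕ) : ℝ)
      ≤ 10 ^ 7 * Real.sqrt K := by
  classical
  have hKr : (1 : ℝ) ≤ K := by exact_mod_cast hK
  have hS1 : 1 ≤ Real.sqrt K := Real.one_le_sqrt.2 hKr
  by_cases h10 : 10 ∣ x
  · have he : {k : ℕ | M < k ∧ k ≤ M + K ∧ IsDecimalPalindrome (x ^ k)} = ∅ := by
      rw [Set.eq_empty_iff_forall_notMem]
      rintro k ⟨h1, _, h3⟩
      exact not_ten_dvd (by positivity) h3 (dvd_trans h10 (dvd_pow_self x (by omega)))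
    rw [he, Set.ncard_empty]
    push_cast
    positivity
  · obtain ⟨b, c, h⟩ := exists_good hx h10
    set A : Finset ℕ := (Finset.Ioc M (M + K)).filter
      (fun k => IsDecimalPalindrome (x ^ k) ∧ 30 + 10 * Nat.sqrt K ≤ k) with hA
    have hAS : AS x K A := by
      intro k hk
      obtain ⟨h1, h2, h3⟩ := Finset.mem_filter.1 hk
      refine ⟨h2, h3, fun k' hk' => ?_⟩
      have h4 := Finset.mem_Ioc.1 h1
      have h5 := Finset.mem_Ioc.1 (Finset.mem_filter.1 hk').1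
      omega
    have h1 := card_AS_le h hK hAS
    have hsub : {k : ℕ | M < k ∧ k ≤ M + K ∧ IsDecimalPalindrome (x ^ k)} ⊆
        ((A ∪ Finset.range (30 + 10 * Nat.sqrt K) : Finset ℕ) : Set ℕ) := by
      rintro k ⟨h1, h2, h3⟩
      rw [Finset.mem_coe, Finset.mem_union, hA, Finset.mem_filter, Finset.mem_Ioc,
        Finset.mem_range]
      by_cases h4 : 30 + 10 * Nat.sqrt K ≤ k
      · left
        exact ⟨⟨h1, h2⟩, h3, h4⟩
      · right
        omega
    have h2 := Set.ncard_le_ncard hsub (Finset.finite_toSet _)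
    rw [Set.ncard_coe_finset] at h2
    have h3 := h2.trans (Finset.card_union_le _ _)
    rw [Finset.card_range] at h3
    have h4 : (({k : ℕ | M < k ∧ k ≤ M + K ∧ IsDecimalPalindrome (x ^ k)}.ncard : ℕ) : ℝ)
        ≤ A.card + (30 + 10 * (Nat.sqrt K : ℝ)) := by exact_mod_cast h3
    have h5 : (Nat.sqrt K : ℝ) ≤ Real.sqrt K := Real.nat_sqrt_le_real_sqrt
    linarith

end Pool.Agent.H.MP_40bd32_nt.helper88
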