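import Mathlib

set_option autoImplicit false

namespace Pool.Agent.H.MP_40bd32_nt.helper88

/-- the `p`-part of `x^4 - 1` -/
noncomputable def cc (p x : ℕ) : ℕ := p ^ padicValNat p (x ^ 4 - 1)

theorem cc_pos {p x : ℕ} (hp : 0 < p) : 0 < cc p x := by
  unfold cc
  positivity

theorem cc_dvd (p x : ℕ) : cc p x ∣ x ^ 4 - 1 := by
  unfold cc
  exact pow_padicValNat_dvd

theorem val_le {p x D : ℕ} (hp : p = 2 ∨ p = 5) (hx : ¬ p ∣ x) (hx2 : 2 ≤ x) (hD : D ≠ 0) :
    padicValNat p (x ^ D - 1) ≤ padicValNat p (x ^ 4 - 1) + padicValNat p D := by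
  have hxD : 2 ≤ x ^ D := le_trans hx2 (Nat.le_self_pow hD x)
  rcases hp with rfl | rfl
  · have h1 : x ^ D - 1 ∣ x ^ (2 * D) - 1 := by
      have := Nat.sub_dvd_pow_sub_pow (x ^ D) 1 2
      rwa [one_pow, ← pow_mul, mul_comm D 2] at this
    have hodd : 2 ∣ x - 1 := by omega
    have h2 := padicValNat.pow_two_sub_pow (n := 2 * D) (x := x) (y := 1) (by omega) hodd hx
      (by omega) (even_two_mul D)
    have h3 := padicValNat.pow_two_sub_pow (n := 4) (x := x) (y := 1) (by omega) hodd hx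
      (by omega) (by decide)
    rw [one_pow] at h2 h3
    have h4 : padicValNat 2 (2 * D) = 1 + padicValNat 2 D := by
      rw [padicValNat.mul (by norm_num) hD]
      simp
    have h5 : padicValNat 2 4 = 2 := by
      have : (4 : ℕ) = 2 ^ 2 := by norm_num
      rw [this, padicValNat.prime_pow]
    have h6 : padicValNat 2 (x ^ D - 1) ≤ padicValNat 2 (x ^ (2 * D) - 1) := by
      refine (padicValNat_dvd_iff_le ?_).1 ?_
      · have : 2 ≤ x ^ (2 * D) := le_trans hx2 (Nat.le_self_pow (by omega) x)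
        omega
      · exact dvd_trans pow_padicValNat_dvd h1
    omega
  · haveI : Fact (Nat.Prime 5) := ⟨by norm_num⟩
    have h1 : x ^ D - 1 ∣ (x ^ 4) ^ D - 1 := by
      have := Nat.sub_dvd_pow_sub_pow (x ^ D) 1 4
      rwa [one_pow, ← pow_mul, mul_comm D 4, pow_mul] at this
    have h5 : 5 ∣ x ^ 4 - 1 := by
      have h : x % 5 = 1 ∨ x % 5 = 2 ∨ x % 5 = 3 ∨ x % 5 = 4 := by omega
      have hx1 : 1 ≤ x ^ 4 := Nat.one_le_pow _ _ (by omega)
      rw [← Nat.modEq_iff_dvd' hx1]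
      unfold Nat.ModEq
      rw [Nat.pow_mod]
      rcases h with h | h | h | h <;> rw [h] <;> norm_num
    have hx4 : 2 ≤ x ^ 4 := le_trans hx2 (Nat.le_self_pow (by norm_num) x)
    have hnx4 : ¬ 5 ∣ x ^ 4 := fun h => hx (Nat.Prime.dvd_of_dvd_pow (by norm_num) h)
    have h2 := padicValNat.pow_sub_pow (p := 5) (by decide) (show 1 < x ^ 4 by omega) h5 hnx4 hD
    rw [one_pow] at h2
    rw [← h2]
    refine (padicValNat_dvd_iff_le ?_).1 ?_
    · have : 2 ≤ (x ^ 4) ^ D := le_trans hx4 (Nat.le_self_pow hD _)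
      omega
    · exact dvd_trans pow_padicValNat_dvd h1

theorem pow_dvd_cc_mul {p x D v : ℕ} (hp : p = 2 ∨ p = 5) (hx : ¬ p ∣ x) (hx2 : 2 ≤ x)
    (hD : D ≠ 0) (h : p ^ v ∣ x ^ D - 1) : p ^ v ∣ cc p x * D := by
  have hpp : Nat.Prime p := by rcases hp with rfl | rfl <;> norm_num
  haveI : Fact p.Prime := ⟨hpp⟩
  have hne : x ^ D - 1 ≠ 0 := by
    have : 2 ≤ x ^ D := le_trans hx2 (Nat.le_self_pow hD x)
    omega
  have h1 : v ≤ padicValNat p (x ^ D - 1) := (padicValNat_dvd_iff_le hne).1 h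
  have h2 := h1.trans (val_le hp hx hx2 hD)
  refine dvd_trans (pow_dvd_pow p h2) ?_
  rw [pow_add]
  exact mul_dvd_mul (dvd_of_eq rfl) pow_padicValNat_dvd

/-- equal low digits of two powers force a `p`-adic closeness of the exponents -/
theorem dvd_of_mod_eq {p x k k' v : ℕ} (hp : p = 2 ∨ p = 5) (hx : ¬ p ∣ x) (hx2 : 2 ≤ x)
    (hk : k < k') (h : x ^ k % 10 ^ v = x ^ k' % 10 ^ v) : p ^ v ∣ cc p x * (k' - k) := by
  have hpp : Nat.Prime p := by rcases hp with rfl | rfl <;> norm_num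
  have h10 : p ∣ 10 := by rcases hp with rfl | rfl <;> norm_num
  refine pow_dvd_cc_mul hp hx hx2 (by omega) ?_
  have h1 : 10 ^ v ∣ x ^ k' - x ^ k :=
    (Nat.modEq_iff_dvd' (Nat.pow_le_pow_right (by omega) hk.le)).1 h
  have h2 : p ^ v ∣ x ^ k' - x ^ k := dvd_trans (pow_dvd_pow_of_dvd h10 v) h1
  have h3 : x ^ k' - x ^ k = x ^ k * (x ^ (k' - k) - 1) := by
    rw [Nat.mul_sub, mul_one, ← pow_add]
    congr 2
    omega
  rw [h3] at h2
  refine (Nat.Coprime.dvd_mul_left ?_).1 h2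
  exact Nat.Coprime.pow _ _ ((Nat.Prime.coprime_iff_not_dvd hpp).2 hx)

end Pool.Agent.H.MP_40bd32_nt.helper88
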