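import Pool.Agent.H.MP_40bd32_nt.helper88.Occ

set_option autoImplicit false

open N4baffcff

namespace Pool.Agent.H.MP_40bd32_nt.helper88

variable {x b c : ℕ}

theorem K_lt_two_pow (K : ℕ) : K < 2 ^ (2 * Nat.sqrt K) := by
  have h1 : K < (Nat.sqrt K + 1) * (Nat.sqrt K + 1) := Nat.lt_succ_sqrt K
  have h2 : Nat.sqrt K + 1 ≤ 2 ^ Nat.sqrt K := Nat.lt_two_pow_self
  calc K < (Nat.sqrt K + 1) * (Nat.sqrt K + 1) := h1
    _ ≤ 2 ^ Nat.sqrt K * 2 ^ Nat.sqrt K := Nat.mul_le_mul h2 h2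
    _ = 2 ^ (2 * Nat.sqrt K) := by rw [← pow_add]; congr 1; ring

theorem level_ok {x K k j : ℕ} (hx : 2 ≤ x) (hk : 30 + 10 * Nat.sqrt K ≤ k)
    (hj : 10 ^ j ≤ x ^ 16 * (100 * K ^ 5)) : 10 ^ j ≤ x ^ k := by
  refine hj.trans ?_
  have h1 := (K_lt_two_pow K).le
  have h2 : K ^ 5 ≤ 2 ^ (10 * Nat.sqrt K) := by
    calc K ^ 5 ≤ (2 ^ (2 * Nat.sqrt K)) ^ 5 := Nat.pow_le_pow_left h1 5
      _ = 2 ^ (10 * Nat.sqrt K) := by rw [← pow_mul]; congr 1; ring
  have h3 : 100 * K ^ 5 ≤ 2 ^ (14 + 10 * Nat.sqrt K) := by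
    rw [pow_add]
    exact Nat.mul_le_mul (by norm_num) h2
  calc x ^ 16 * (100 * K ^ 5) ≤ x ^ 16 * 2 ^ (14 + 10 * Nat.sqrt K) := Nat.mul_le_mul_left _ h3
    _ ≤ x ^ 16 * x ^ (14 + 10 * Nat.sqrt K) := Nat.mul_le_mul_left _ (Nat.pow_le_pow_left hx _)
    _ = x ^ (30 + 10 * Nat.sqrt K) := by rw [← pow_add]; congr 1; ring
    _ ≤ x ^ k := Nat.pow_le_pow_right (by omega) hk

theorem small_level {K j : ℕ} (hj : 10 ^ j ≤ 20000 * K) : j ≤ 30 + 10 * Nat.sqrt K := by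
  have h1 : 2 ^ j ≤ 10 ^ j := Nat.pow_le_pow_left (by norm_num) j
  have h2 : 20000 * K ≤ 2 ^ (15 + 2 * Nat.sqrt K) := by
    rw [pow_add]
    exact Nat.mul_le_mul (by norm_num) (K_lt_two_pow K).le
  have h3 : 2 ^ j ≤ 2 ^ (15 + 2 * Nat.sqrt K) := (h1.trans hj).trans h2
  have h4 := (Nat.pow_le_pow_iff_right (by norm_num : 1 < 2)).1 h3
  omega

theorem od_succ_le (h : Good x b c) (j : ℕ) : od x b (j + 1) ≤ 10 * od x b j := by
  have := La_succ_le h one_pos j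
  unfold La at this
  rwa [Nat.lcm_one_left, Nat.lcm_one_left] at this

theorem v_exists (h : Good x b c) {K : ℕ} (hK : 1 ≤ K) :
    ∃ v, 200 * K < od x b v * 10 ^ v ∧ od x b v * 10 ^ v ≤ 20000 * K := by
  classical
  have hex : ∃ v, 200 * K < od x b v * 10 ^ v := by
    refine ⟨200 * K, ?_⟩
    have h1 : 200 * K < 10 ^ (200 * K) := Nat.lt_pow_self (by norm_num)
    have h2 := od_pos h (200 * K)
    nlinarith
  refine ⟨Nat.find hex, Nat.find_spec hex, ?_⟩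
  set v := Nat.find hex with hv
  have h0 : v ≠ 0 := by
    intro hv0
    have := Nat.find_spec hex
    rw [← hv, hv0, od_zero h, pow_zero] at this
    omega
  obtain ⟨u, hu⟩ : ∃ u, v = u + 1 := ⟨v - 1, by omega⟩
  have h1 : ¬ 200 * K < od x b u * 10 ^ u := Nat.find_min hex (by omega)
  have h2 := od_succ_le h u
  rw [hu, pow_succ]
  have h3 : od x b (u + 1) * (10 ^ u * 10) ≤ 10 * od x b u * (10 ^ u * 10) :=
    Nat.mul_le_mul_right _ h2
  have h4 : 10 * od x b u * (10 ^ u * 10) = 100 * (od x b u * 10 ^ u) := by ring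
  omega

/-- a set of exponents as in the theorem -/
def AS (x K : ℕ) (A : Finset ℕ) : Prop :=
  ∀ k ∈ A, IsDecimalPalindrome (x ^ k) ∧ 30 + 10 * Nat.sqrt K ≤ k ∧ ∀ k' ∈ A, k' ≤ k + K

theorem AS.ps {x K : ℕ} {A : Finset ℕ} (hx : 2 ≤ x) (hA : AS x K A) {j : ℕ}
    (hj : 10 ^ j ≤ x ^ 16 * (100 * K ^ 5)) : PS x j K A :=
  fun k hk => ⟨(hA k hk).1, level_ok hx (hA k hk).2.1 hj, (hA k hk).2.2⟩

theorem AS.sub {x K : ℕ} {A B : Finset ℕ} (hA : AS x K A) (hB : B ⊆ A) : AS x K B :=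
  fun k hk => ⟨(hA k (hB hk)).1, (hA k (hB hk)).2.1, fun k' hk' => (hA k (hB hk)).2.2 k' (hB hk')⟩

theorem AS.rest (h : Good x b c) {K : ℕ} {A : Finset ℕ} (hA : AS x K A) {j : ℕ}
    (hj : 10 ^ j ≤ 20000 * K) : ∀ k ∈ A, (10 / b) ^ j ∣ x ^ k :=
  fun k hk => h.hrest ((small_level hj).trans (hA k hk).2.1)

theorem small_big {x K j : ℕ} (hx : 2 ≤ x) (hK : 1 ≤ K) (hj : 10 ^ j ≤ 20000 * K) :
    10 ^ j ≤ x ^ 16 * (100 * K ^ 5) := by
  refine hj.trans ?_
  have h1 : 2 ^ 16 ≤ x ^ 16 := Nat.pow_le_pow_left hx 16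
  have h2 : K ≤ K ^ 5 := Nat.le_self_pow (by norm_num) K
  calc 20000 * K ≤ 2 ^ 16 * (100 * K ^ 5) := by norm_num; omega
    _ ≤ x ^ 16 * (100 * K ^ 5) := Nat.mul_le_mul_right _ h1

theorem sqrt_bound {n K C : ℝ} (hn : 0 ≤ n) (hK : 0 ≤ K) (hC : 0 ≤ C) (h : n ^ 2 ≤ C ^ 2 * K) :
    n ≤ C * Real.sqrt K := by
  have h1 : n ^ 2 ≤ (C * Real.sqrt K) ^ 2 := by
    rw [mul_pow, Real.sq_sqrt hK]
    exact h
  exact (pow_le_pow_iff_left₀ hn (by positivity) two_ne_zero).1 h1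

theorem case_one (h : Good x b c) {K v : ℕ} (hK : 1 ≤ K) (hv : od x b v * 10 ^ v ≤ 20000 * K)
    {A : Finset ℕ} (hA : AS x K A)
    (hno : ¬ ∃ d : ℕ, 1 ≤ d ∧ d ≤ K ∧ od x b v ∣ d ∧
      ∃ P : ℤ, |(d : ℝ) * Real.logb 10 x - P| ≤ 5 / 10 ^ v) :
    (A.card : ℝ) ≤ 142 * Real.sqrt K := by
  classical
  have ho := od_pos h v
  have hv10 : 10 ^ v ≤ 20000 * K := by nlinarith [Nat.one_le_pow v 10 (by norm_num)]
  have hps := hA.ps h.hx (small_big h.hx hK hv10)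
  have hre := hA.rest h hv10
  have hno' : ∀ k ∈ A, ∀ k' ∈ A, k < k' → ¬ k % od x b v = k' % od x b v := by
    intro k hk k' hk' hkk he
    have hd : od x b v ∣ k' - k := (Nat.modEq_iff_dvd' hkk.le).1 he
    have p := hps k hk
    have p' := hps k' hk'
    have hn := near_pal h p.1 p'.1 hkk.le p.2.1 (hre k hk) hd
    have hle := (hA k hk).2.2 k' hk'
    exact hno ⟨k' - k, by omega, by omega, hd, _, hn⟩
  have h1 : A.card ≤ (Finset.range (od x b v)).card := by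
    refine Finset.card_le_card_of_injOn (fun k => k % od x b v) ?_ ?_
    · intro k _
      exact Finset.mem_coe.2 (Finset.mem_range.2 (Nat.mod_lt _ ho))
    · intro k hk k' hk' e
      have e' : k % od x b v = k' % od x b v := e
      rcases lt_trichotomy k k' with hlt | heq | hgt
      · exact absurd e' (hno' k hk k' hk' hlt)
      · exact heq
      · exact absurd e'.symm (hno' k' hk' k hk hgt)
  rw [Finset.card_range] at h1
  have h2 := od_le_ten h v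
  have h3 : A.card ^ 2 ≤ 20000 * K := by
    calc A.card ^ 2 ≤ od x b v ^ 2 := Nat.pow_le_pow_left h1 2
      _ = od x b v * od x b v := by ring
      _ ≤ od x b v * 10 ^ v := Nat.mul_le_mul_left _ h2
      _ ≤ 20000 * K := hv
  have h4 : (A.card : ℝ) ^ 2 ≤ 20000 * K := by exact_mod_cast h3
  refine sqrt_bound (by positivity) (by positivity) (by norm_num) ?_
  have : (0 : ℝ) ≤ K := by positivity
  linarith

theorem occ_le (h : Good x b c) {d : ℕ} (hd : 0 < d) {P : ℤ} (hco : IsCoprime P (d : ℤ)) {g : ℝ}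
    (hg : |Real.logb 10 x - P / d| = g) (hg0 : 0 < g) {z K : ℕ} (hK : 1 ≤ K)
    (hs : 40 * (K * g) * 10 ^ z ≤ 1) {A : Finset ℕ} (hA : AS x K A)
    (hz2 : La x b d z ≤ K) (hz3 : La x b d z ≤ 100 ^ z) :
    ((A.image (fun k => k % d)).card : ℝ) ≤ 121 * Real.sqrt (La x b d z) := by
  have hLz := La_pos h hd z
  set w := Nat.log 100 (La x b d z) with hw
  have hw1 : 100 ^ w ≤ La x b d z := Nat.pow_log_le_self 100 hLz.ne'
  have hw2 : La x b d z < 100 ^ (w + 1) := Nat.lt_pow_succ_log_self (by norm_num) _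
  have hwz : w ≤ z := (Nat.pow_le_pow_iff_right (by norm_num : 1 < 100)).1 (hw1.trans hz3)
  have hw10 : 10 ^ w ≤ 20000 * K := by
    have : 10 ^ w ≤ 100 ^ w := Nat.pow_le_pow_left (by norm_num) w
    omega
  have hsw : 40 * (K * g) * 10 ^ w ≤ 1 := by
    refine le_trans ?_ hs
    refine mul_le_mul_of_nonneg_left ?_ (by positivity)
    exact pow_le_pow_right₀ (by norm_num) hwz
  have h1 := occ h hd hco hg hg0 hsw (hA.ps h.hx (small_big h.hx hK hw10)) (hA.rest h hw10)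
  refine h1.trans ?_
  have hLw : La x b d w ≤ La x b d z := Nat.le_of_dvd hLz (La_mono h hwz)
  have hLwr : (La x b d w : ℝ) ≤ La x b d z := by exact_mod_cast hLw
  set S := Real.sqrt (La x b d z) with hS
  have hSS : S * S = La x b d z := Real.mul_self_sqrt (by positivity)
  have hS0 : 0 ≤ S := Real.sqrt_nonneg _
  have hS1 : (10 : ℝ) ^ w ≤ S := by
    rw [hS]
    apply Real.le_sqrt_of_sq_le
    have : ((10 : ℝ) ^ w) ^ 2 = 100 ^ w := by
      rw [← pow_mul, mul_comm w 2, pow_mul]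
      norm_num
    rw [this]
    exact_mod_cast hw1
  have hS2 : S ≤ 10 * 10 ^ w := by
    rw [hS]
    rw [Real.sqrt_le_left (by positivity)]
    have : ((10 : ℝ) * 10 ^ w) ^ 2 = 100 ^ (w + 1) := by
      rw [mul_pow, ← pow_mul, mul_comm w 2, pow_mul, pow_succ]
      norm_num
      ring
    rw [this]
    exact_mod_cast hw2.le
  have h2 : 12 * (La x b d w : ℝ) / 10 ^ w ≤ 120 * S := by
    rw [div_le_iff₀ (by positivity)]
    nlinarith
  linarith

/-- splitting along the residues mod `d` -/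
theorem card_le_occ {A B : Finset ℕ} {d : ℕ} {F O : ℝ} (hF : 0 ≤ F) (hBA : B ⊆ A)
    (h1 : ∀ ρ, ((B.filter (fun k => k % d = ρ)).card : ℝ) ≤ F)
    (h2 : ((A.image (fun k => k % d)).card : ℝ) ≤ O) : (B.card : ℝ) ≤ O * F := by
  classical
  have h3 : (B.card : ℝ) ≤ (B.image (fun k => k % d)).card * F := card_le_real fun a _ => h1 a
  have h4 : (B.image (fun k => k % d)).card ≤ (A.image (fun k => k % d)).card :=
    Finset.card_le_card (Finset.image_subset_image hBA)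
  have h5 : ((B.image (fun k => k % d)).card : ℝ) ≤ O := by
    refine le_trans ?_ h2
    exact_mod_cast h4
  exact h3.trans (mul_le_mul_of_nonneg_right h5 hF)

end Pool.Agent.H.MP_40bd32_nt.helper88
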