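import Pool.Agent.H.MP_40bd32_nt.helper88.MainA

set_option autoImplicit false

open N4baffcff

namespace Pool.Agent.H.MP_40bd32_nt.helper88

variable {x b c : ℕ}

theorem La_level (h : Good x b c) {d : ℕ} (hd : 0 < d) {z K : ℕ}
    (hz2 : La x b d z ≤ K) : 10 ^ z ≤ x ^ 16 * K ^ 4 := by
  have h1 : b ^ z ≤ x ^ 4 * K := by
    have h2 := pow_le_mul_od h z
    have h3 : od x b z ≤ K :=
      (Nat.le_of_dvd (La_pos h hd z) (Nat.dvd_lcm_right _ _)).trans hz2
    exact h2.trans (Nat.mul_le_mul h.hc4 h3)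
  have h4 : 10 ≤ b ^ 4 := by
    have := Nat.pow_le_pow_left h.two_le_b 4
    omega
  calc 10 ^ z ≤ (b ^ 4) ^ z := Nat.pow_le_pow_left h4 z
    _ = (b ^ z) ^ 4 := by rw [← pow_mul, ← pow_mul, mul_comm]
    _ ≤ (x ^ 4 * K) ^ 4 := Nat.pow_le_pow_left h1 4
    _ = x ^ 16 * K ^ 4 := by rw [mul_pow, ← pow_mul]

theorem case_beta (h : Good x b c) {d : ℕ} (hd : 0 < d) {P : ℤ} (hco : IsCoprime P (d : ℤ)) {g : ℝ}
    (hg : |Real.logb 10 x - P / d| = g) (hg0 : 0 < g) {z K : ℕ} (hK : 1 ≤ K) (hdK : d ≤ K)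
    (hs : 40 * (K * g) * 10 ^ z ≤ 1) {A : Finset ℕ} (hA : AS x K A)
    (hz2 : La x b d z ≤ K) (hz3 : La x b d z ≤ 100 ^ z) (hz4 : K < 10 * La x b d z) :
    (A.card : ℝ) ≤ 4356 * Real.sqrt K := by
  classical
  have hocc := occ_le h hd hco hg hg0 hK hs hA hz2 hz3
  have hLz := La_pos h hd z
  have hLzr : (0 : ℝ) < La x b d z := by exact_mod_cast hLz
  have hsq : Real.sqrt (La x b d z) ≤ Real.sqrt K := Real.sqrt_le_sqrt (by exact_mod_cast hz2)
  have hlev : 10 ^ z ≤ x ^ 16 * (100 * K ^ 5) := by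
    refine (La_level h hd hz2).trans (Nat.mul_le_mul_left _ ?_)
    have : K ^ 4 ≤ K ^ 5 := Nat.pow_le_pow_right hK (by norm_num)
    omega
  set A1 := A.filter (fun k => (10 / b) ^ z ∣ x ^ k) with hA1
  set A2 := A.filter (fun k => ¬ (10 / b) ^ z ∣ x ^ k) with hA2
  have hcard : A.card = A1.card + A2.card :=
    (Finset.card_filter_add_card_filter_not (s := A) _).symm
  have hA1s : A1 ⊆ A := Finset.filter_subset _ _
  have hA2s : A2 ⊆ A := Finset.filter_subset _ _
  have h1 : (A1.card : ℝ) ≤ 121 * Real.sqrt (La x b d z) * 33 := by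
    refine card_le_occ (by norm_num) hA1s (fun ρ => ?_) hocc
    have h2 := fib h hd hg hg0 (le_refl z) hs hdK ((hA.sub hA1s).ps h.hx hlev)
      (fun k hk => (Finset.mem_filter.1 hk).2) (W := K) (by positivity) (fun y hy _ => hy) ρ
    refine h2.trans ?_
    rw [Nat.div_self hLz]
    have h3 : (K : ℝ) / La x b d z ≤ 10 := by
      rw [div_le_iff₀ hLzr]
      exact_mod_cast hz4.le
    push_cast
    linarith
  have h2 : (A2.card : ℝ) ≤ 121 * Real.sqrt (La x b d z) * 3 :=
    card_le_occ (by norm_num) hA2s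
      (fun ρ => fib_distinct h hd hg hg0 hs hdK ((hA.sub hA2s).ps h.hx hlev)
        (fun k hk => (Finset.mem_filter.1 hk).2) ρ) hocc
  have h3 : (A.card : ℝ) = A1.card + A2.card := by exact_mod_cast hcard
  rw [h3]
  linarith

theorem case_alpha1 (h : Good x b c) {d : ℕ} (hd : 0 < d) {P : ℤ} (hco : IsCoprime P (d : ℤ))
    {g : ℝ} (hg : |Real.logb 10 x - P / d| = g) (hg0 : 0 < g) {z K v : ℕ} (hK : 1 ≤ K)
    (hdK : d ≤ K) (hs : 40 * (K * g) * 10 ^ z ≤ 1) {A : Finset ℕ} (hA : AS x K A)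
    (hz3 : 100 ^ z ≤ La x b d z) (hzv : z ≤ v)
    (hv1 : 10 ^ v ≤ 20000 * K) (hv2 : K ≤ (10 ^ v) ^ 2)
    (hv3 : (La x b d v : ℝ) * g ≤ 5 / 10 ^ v) (hα : 1 ≤ 400 * (K * g) * 10 ^ z) :
    (A.card : ℝ) ≤ 156000 * Real.sqrt K := by
  classical
  have hLz := La_pos h hd z
  have hLzr : (0 : ℝ) < La x b d z := by exact_mod_cast hLz
  have hLv := La_pos h hd v
  have hLvr : (0 : ℝ) < La x b d v := by exact_mod_cast hLv
  have hz1 : 10 ^ z ≤ 20000 * K := (Nat.pow_le_pow_right (by norm_num) hzv).trans hv1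
  set Z : ℝ := 10 ^ z with hZ
  set V : ℝ := 10 ^ v with hV
  have hZ0 : 0 < Z := by positivity
  have hV0 : 0 < V := by positivity
  have hKr : (0 : ℝ) < K := by exact_mod_cast hK
  have hocc0 := occ h hd hco hg hg0 hs (hA.ps h.hx (small_big h.hx hK hz1)) (hA.rest h hz1)
  have hZL : Z * Z ≤ La x b d z := by
    have : Z * Z = 100 ^ z := by
      rw [hZ, ← mul_pow]
      norm_num
    rw [this]
    exact_mod_cast hz3
  have hocc : ((A.image (fun k => k % d)).card : ℝ) ≤ 13 * La x b d z / Z := by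
    refine hocc0.trans ?_
    rw [le_div_iff₀ hZ0, add_mul, div_mul_cancel₀ _ hZ0.ne']
    linarith
  set W : ℝ := 5 / V / g with hW
  have hW0 : 0 < W := by positivity
  have hLvW : (La x b d v : ℝ) ≤ W := by
    rw [hW, le_div_iff₀ hg0]
    exact hv3
  have hdvd : La x b d z ∣ La x b d v := La_mono h hzv
  have h1 : (A.card : ℝ) ≤ 13 * La x b d z / Z * (6 * W / La x b d z) := by
    refine card_le_occ (by positivity) (le_refl A) (fun ρ => ?_) hocc
    have h2 := fib h hd hg hg0 hzv hs hdK (hA.ps h.hx (small_big h.hx hK hv1))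
      (hA.rest h hv1) hW0.le (fun y _ hy => hy) ρ
    refine h2.trans ?_
    rw [Nat.cast_div hdvd hLzr.ne']
    have h3 : (La x b d v : ℝ) / La x b d z * (1 + W / La x b d v)
        = (La x b d v + W) / La x b d z := by
      field_simp
    rw [h3, ← mul_div_assoc]
    refine div_le_div_of_nonneg_right ?_ hLzr.le
    linarith
  have h2 : 13 * (La x b d z : ℝ) / Z * (6 * W / La x b d z) = 390 / (Z * V * g) := by
    rw [hW]
    field_simp
    norm_num
  rw [h2] at h1
  refine h1.trans ?_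
  set S := Real.sqrt K with hS
  have hSS : S * S = K := Real.mul_self_sqrt hKr.le
  have hS0 : 0 < S := Real.sqrt_pos.2 hKr
  have hSV : S ≤ V := by
    rw [hS, Real.sqrt_le_left hV0.le, hV]
    exact_mod_cast hv2
  rw [div_le_iff₀ (by positivity)]
  have h4 : 1 ≤ 400 * (S * V * g) * Z := by
    refine hα.trans ?_
    refine mul_le_mul_of_nonneg_right ?_ hZ0.le
    have : (K : ℝ) * g ≤ S * V * g := by
      refine mul_le_mul_of_nonneg_right ?_ hg0.le
      rw [← hSS]
      exact mul_le_mul_of_nonneg_left hSV hS0.le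
    linarith
  nlinarith

theorem case_alpha2 (h : Good x b c) {d : ℕ} (hd : 0 < d) {P : ℤ} (hco : IsCoprime P (d : ℤ))
    {g : ℝ} (hg : |Real.logb 10 x - P / d| = g) (hg0 : 0 < g) {z K : ℕ} (hK : 1 ≤ K)
    (hdK : d ≤ K) (hs : 40 * (K * g) * 10 ^ z ≤ 1) {A : Finset ℕ} (hA : AS x K A)
    (hz2 : La x b d z ≤ K) (hz3 : La x b d z ≤ 100 ^ z) (hα : 1 ≤ 400 * (K * g) * 10 ^ z) :
    (A.card : ℝ) ≤ 7264003 * Real.sqrt K := by
  classical
  have hocc := occ_le h hd hco hg hg0 hK hs hA hz2 hz3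
  have hLz := La_pos h hd z
  have hLzr : (0 : ℝ) < La x b d z := by exact_mod_cast hLz
  have hKr : (0 : ℝ) < K := by exact_mod_cast hK
  have hsq : Real.sqrt (La x b d z) ≤ Real.sqrt K := Real.sqrt_le_sqrt (by exact_mod_cast hz2)
  -- choice of the level
  have hex : ∃ i, K ≤ 10 ^ i * La x b d (z + i) := by
    refine ⟨K, ?_⟩
    have h1 : K < 10 ^ K := Nat.lt_pow_self (by norm_num)
    have h2 := La_pos h hd (z + K)
    nlinarith
  obtain ⟨i, hi1, hi2⟩ : ∃ i, K ≤ 10 ^ i * La x b d (z + i) ∧ 10 ^ i * La x b d (z + i) ≤ 100 * K := by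
    refine ⟨Nat.find hex, Nat.find_spec hex, ?_⟩
    rcases Nat.eq_zero_or_pos (Nat.find hex) with h0 | h0
    · rw [h0, pow_zero, one_mul, add_zero]
      omega
    · obtain ⟨u, hu⟩ : ∃ u, Nat.find hex = u + 1 := ⟨Nat.find hex - 1, by omega⟩
      have h1 : ¬ K ≤ 10 ^ u * La x b d (z + u) := Nat.find_min hex (by omega)
      have h2 := La_succ_le h hd (z + u)
      rw [hu, pow_succ, ← add_assoc]
      have h3 : 10 ^ u * 10 * La x b d (z + u + 1) ≤ 10 ^ u * 10 * (10 * La x b d (z + u)) :=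
        Nat.mul_le_mul_left _ h2
      have h4 : 10 ^ u * 10 * (10 * La x b d (z + u)) = 100 * (10 ^ u * La x b d (z + u)) := by ring
      omega
  set j := z + i with hj
  have hLj := La_pos h hd j
  have hLjr : (0 : ℝ) < La x b d j := by exact_mod_cast hLj
  have hi3 : 10 ^ i ≤ 100 * K := by nlinarith [Nat.one_le_pow i 10 (by norm_num)]
  have hlevz := La_level h hd hz2
  have hlevj : 10 ^ j ≤ x ^ 16 * (100 * K ^ 5) := by
    rw [hj, pow_add]
    calc 10 ^ z * 10 ^ i ≤ (x ^ 16 * K ^ 4) * (100 * K) := Nat.mul_le_mul hlevz hi3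
      _ = x ^ 16 * (100 * K ^ 5) := by ring
  have hlevz' : 10 ^ z ≤ x ^ 16 * (100 * K ^ 5) :=
    (Nat.pow_le_pow_right (by norm_num) (by omega)).trans hlevj
  set r := 10 / b with hr
  set A1 := A.filter (fun k => r ^ j ∣ x ^ k) with hA1
  set A2 := A.filter (fun k => ¬ r ^ z ∣ x ^ k) with hA2
  set A3 := A.filter (fun k => r ^ z ∣ x ^ k ∧ ¬ r ^ j ∣ x ^ k) with hA3
  have hA1s : A1 ⊆ A := Finset.filter_subset _ _
  have hA2s : A2 ⊆ A := Finset.filter_subset _ _
  have hcard : A.card ≤ A1.card + A2.card + A3.card := by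
    have hsub : A ⊆ (A1 ∪ A2) ∪ A3 := by
      intro k hk
      rw [Finset.mem_union, Finset.mem_union, hA1, hA2, hA3, Finset.mem_filter, Finset.mem_filter,
        Finset.mem_filter]
      tauto
    refine (Finset.card_le_card hsub).trans ?_
    exact (Finset.card_union_le _ _).trans (Nat.add_le_add_right (Finset.card_union_le _ _) _)
  set S := Real.sqrt K with hS
  have hSS : S * S = K := Real.mul_self_sqrt hKr.le
  have hS0 : 0 < S := Real.sqrt_pos.2 hKr
  set T := Real.sqrt (La x b d z) with hT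
  have hTT : T * T = La x b d z := Real.mul_self_sqrt hLzr.le
  have hT0 : 0 < T := Real.sqrt_pos.2 hLzr
  -- A3
  have h3 : (A3.card : ℝ) ≤ 10 * S := by
    have h31 : A3.card ≤ i := by
      rcases A3.eq_empty_or_nonempty with he | hne
      · rw [he, Finset.card_empty]
        exact Nat.zero_le _
      · set k0 := A3.min' hne with hk0
        have hk0A := A3.min'_mem hne
        have hk0le : ∀ k ∈ A3, k0 ≤ k := fun k hk => A3.min'_le k hk
        have hsub : A3 ⊆ Finset.Ico k0 (k0 + i) := by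
          intro k hk
          rw [Finset.mem_Ico]
          refine ⟨hk0le k hk, ?_⟩
          by_contra hc
          have h5 := (Finset.mem_filter.1 hk0A).2.1
          have h6 := (Finset.mem_filter.1 hk).2.2
          apply h6
          have e : k = k0 + (k - k0) := by have := hk0le k hk; omega
          rw [e, hj, pow_add, pow_add]
          exact Nat.mul_dvd_mul h5 (h.hrest (by omega))
        have := Finset.card_le_card hsub
        rw [Nat.card_Ico] at this
        omega
    have h32 : A3.card ^ 2 ≤ 100 * K := by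
      calc A3.card ^ 2 ≤ i ^ 2 := Nat.pow_le_pow_left h31 2
        _ ≤ (2 ^ i) ^ 2 := Nat.pow_le_pow_left (Nat.lt_two_pow_self).le 2
        _ = 4 ^ i := by
          rw [← pow_mul, mul_comm, pow_mul]
          norm_num
        _ ≤ 10 ^ i := Nat.pow_le_pow_left (by norm_num) i
        _ ≤ 100 * K := hi3
    have h33 : (A3.card : ℝ) ^ 2 ≤ 100 * K := by exact_mod_cast h32
    refine sqrt_bound (by positivity) hKr.le (by norm_num) ?_
    linarith
  -- A2
  have h2 : (A2.card : ℝ) ≤ 121 * T * 3 :=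
    card_le_occ (by norm_num) hA2s
      (fun ρ => fib_distinct h hd hg hg0 hs hdK ((hA.sub hA2s).ps h.hx hlevz')
        (fun k hk => (Finset.mem_filter.1 hk).2) ρ) hocc
  -- A1
  have hzj : z ≤ j := by omega
  have hdvd : La x b d z ∣ La x b d j := La_mono h hzj
  set W : ℝ := 5 / 10 ^ j / g with hW
  have hW0 : 0 < W := by positivity
  have hWL : W ≤ 2000 * La x b d j := by
    rw [hW, div_le_iff₀ hg0, div_le_iff₀ (by positivity)]
    have h4 : (K : ℝ) ≤ 10 ^ i * La x b d j := by exact_mod_cast hi1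
    have h5 : (K : ℝ) * g * 10 ^ z ≤ 10 ^ i * La x b d j * g * 10 ^ z := by
      refine mul_le_mul_of_nonneg_right ?_ (by positivity)
      exact mul_le_mul_of_nonneg_right h4 hg0.le
    have h6 : (10 : ℝ) ^ j = 10 ^ z * 10 ^ i := by rw [hj, pow_add]
    rw [h6]
    nlinarith
  have h1 : (A1.card : ℝ) ≤ 121 * T * (6003 * La x b d j / La x b d z) := by
    refine card_le_occ (by positivity) hA1s (fun ρ => ?_) hocc
    have h4 := fib h hd hg hg0 hzj hs hdK ((hA.sub hA1s).ps h.hx hlevj)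
      (fun k hk => (Finset.mem_filter.1 hk).2) hW0.le (fun y _ hy => hy) ρ
    refine h4.trans ?_
    rw [Nat.cast_div hdvd hLzr.ne']
    have h5 : (La x b d j : ℝ) / La x b d z * (1 + W / La x b d j)
        = (La x b d j + W) / La x b d z := by
      field_simp
    rw [h5, ← mul_div_assoc]
    refine div_le_div_of_nonneg_right ?_ hLzr.le
    linarith
  have h4 : (La x b d j : ℝ) ≤ 10 * (S * T) := by
    have h5 : La x b d j * La x b d j ≤ 100 * K * La x b d z := by
      have h6 := La_add_le h hd z i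
      rw [← hj] at h6
      calc La x b d j * La x b d j ≤ (10 ^ i * La x b d z) * La x b d j := Nat.mul_le_mul_right _ h6
        _ = (10 ^ i * La x b d j) * La x b d z := by ring
        _ ≤ 100 * K * La x b d z := Nat.mul_le_mul_right _ hi2
    have h7 : (La x b d j : ℝ) * La x b d j ≤ 100 * K * La x b d z := by exact_mod_cast h5
    rw [← hSS, ← hTT] at h7
    have h8 : (La x b d j : ℝ) ^ 2 ≤ (10 * (S * T)) ^ 2 := by nlinarith
    exact (pow_le_pow_iff_left₀ hLjr.le (by positivity) two_ne_zero).1 h8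
  have h5 : 121 * T * (6003 * (La x b d j : ℝ) / La x b d z) ≤ 7263630 * S := by
    rw [← hTT, mul_div_assoc', div_le_iff₀ (by positivity)]
    have : 121 * T * (6003 * (La x b d j : ℝ)) ≤ 121 * T * (6003 * (10 * (S * T))) :=
      mul_le_mul_of_nonneg_left (by linarith) (by positivity)
    refine this.trans (le_of_eq ?_)
    ring
  have h6 : (A.card : ℝ) ≤ A1.card + A2.card + A3.card := by exact_mod_cast hcard
  linarith

end Pool.Agent.H.MP_40bd32_nt.helper88
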