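import Pool.Agent.H.MP_40bd32_nt.helper88.MainB

set_option autoImplicit false

open N4baffcff

namespace Pool.Agent.H.MP_40bd32_nt.helper88

variable {x b c : ℕ}

theorem logb_ne_ratio (h : Good x b c) {d : ℕ} (hd : 0 < d) (P : ℤ) :
    Real.logb 10 x - P / d ≠ 0 := by
  intro h0
  have hx := h.hx
  have hdr : (0 : ℝ) < d := by exact_mod_cast hd
  have hxr : (0 : ℝ) < x := by exact_mod_cast (by omega : 0 < x)
  have h1 : (d : ℝ) * Real.logb 10 x = P := by
    have : Real.logb 10 x = P / d := by linarith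
    rw [this]
    field_simp
  have h2 : 0 < Real.logb 10 x := Real.logb_pos (by norm_num) (by exact_mod_cast (by omega : 1 < x))
  have hP : (0 : ℝ) < P := by
    rw [← h1]
    positivity
  have hPz : 0 < P := by exact_mod_cast hP
  obtain ⟨p, hp⟩ : ∃ p : ℕ, P = p := ⟨P.toNat, (Int.toNat_of_nonneg hPz.le).symm⟩
  have hp0 : 0 < p := by
    rw [hp] at hPz
    exact_mod_cast hPz
  rw [hp] at h1
  have h3 : ((x : ℝ)) ^ d = 10 ^ p := by
    have h4 : (x : ℝ) = 10 ^ Real.logb 10 x := (Real.rpow_logb (by norm_num) (by norm_num) hxr).symm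
    rw [h4, ← Real.rpow_natCast, ← Real.rpow_mul (by norm_num), mul_comm, h1]
    push_cast
    exact Real.rpow_natCast 10 p
  have h5 : x ^ d = 10 ^ p := by exact_mod_cast h3
  have h6 : b ∣ x ^ d := by
    rw [h5]
    exact dvd_trans ⟨10 / b, h.b_mul.symm⟩ (dvd_pow_self 10 hp0.ne')
  have h7 : Nat.Coprime (x ^ d) b := Nat.Coprime.pow_left d h.hcop
  have h8 : b = 1 := Nat.Coprime.eq_one_of_dvd h7.symm h6
  have := h.two_le_b
  omega

theorem card_AS_le (h : Good x b c) {K : ℕ} (hK : 1 ≤ K) {A : Finset ℕ} (hA : AS x K A) :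
    (A.card : ℝ) ≤ 8000000 * Real.sqrt K := by
  classical
  have hS0 : 0 ≤ Real.sqrt K := Real.sqrt_nonneg _
  have hKr : (0 : ℝ) < K := by exact_mod_cast hK
  obtain ⟨v, hv1, hv2⟩ := v_exists h hK
  by_cases hno : ∃ d : ℕ, 1 ≤ d ∧ d ≤ K ∧ od x b v ∣ d ∧
      ∃ P : ℤ, |(d : ℝ) * Real.logb 10 x - P| ≤ 5 / 10 ^ v
  swap
  · have := case_one h hK hv2 hA hno
    linarith
  obtain ⟨D, hD1, hDK, hoD, Q, hQ⟩ := hno
  -- reduce the fraction
  have hgpos : 0 < Int.gcd Q (D : ℤ) := Int.gcd_pos_of_ne_zero_right _ (by exact_mod_cast (by omega : D ≠ 0))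
  obtain ⟨P, d', hPd, hQe, hDe⟩ := Int.exists_gcd_one hgpos
  set G := Int.gcd Q (D : ℤ) with hG
  have hd'pos : 0 < d' := by
    by_contra hc
    have h1 : d' * (G : ℤ) ≤ 0 := mul_nonpos_of_nonpos_of_nonneg (by linarith) (by positivity)
    have h2 : (0 : ℤ) < D := by exact_mod_cast hD1
    linarith
  obtain ⟨d, hd⟩ : ∃ d : ℕ, d' = d := ⟨d'.toNat, (Int.toNat_of_nonneg hd'pos.le).symm⟩
  subst hd
  have hdpos : 0 < d := by exact_mod_cast hd'pos
  have hDe' : D = d * G := by exact_mod_cast hDe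
  have hco : IsCoprime P (d : ℤ) := Int.isCoprime_iff_gcd_eq_one.2 hPd
  have hdr : (0 : ℝ) < d := by exact_mod_cast hdpos
  have hDr : (0 : ℝ) < D := by exact_mod_cast hD1
  set g : ℝ := |Real.logb 10 x - P / d| with hg
  have hg0 : 0 < g := abs_pos.2 (logb_ne_ratio h hdpos P)
  have hDg : (D : ℝ) * g ≤ 5 / 10 ^ v := by
    refine le_trans (le_of_eq ?_) hQ
    rw [hg, ← abs_of_pos hDr, ← abs_mul, abs_of_pos hDr]
    congr 1
    have hQr : (Q : ℝ) = P * G := by exact_mod_cast hQe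
    have hDr' : (D : ℝ) = d * G := by exact_mod_cast hDe'
    rw [hQr, hDr']
    field_simp
  have hdD : d ∣ D := ⟨G, hDe'⟩
  have hdK : d ≤ K := (Nat.le_of_dvd hD1 hdD).trans hDK
  have hLvD : La x b d v ∣ D := Nat.lcm_dvd hdD hoD
  have hLv := La_pos h hdpos v
  have hLvD' : La x b d v ≤ D := Nat.le_of_dvd hD1 hLvD
  have hLvK : La x b d v ≤ K := hLvD'.trans hDK
  have hoLv : od x b v ≤ D := Nat.le_of_dvd hD1 hoD
  have hV0 : (0 : ℝ) < 10 ^ v := by positivity
  have hv10 : 10 ^ v ≤ 20000 * K := by nlinarith [od_pos h v, Nat.one_le_pow v 10 (by norm_num)]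
  have hDV : (D : ℝ) * g * 10 ^ v ≤ 5 := (le_div_iff₀ hV0).1 hDg
  have hov : (200 : ℝ) * K ≤ D * 10 ^ v := by
    have h1 : 200 * K ≤ D * 10 ^ v := hv1.le.trans (Nat.mul_le_mul_right _ hoLv)
    exact_mod_cast h1
  have hbase : 40 * (K * g) ≤ 1 := by
    have : (200 : ℝ) * K * g ≤ D * 10 ^ v * g := mul_le_mul_of_nonneg_right hov hg0.le
    nlinarith
  -- the level z
  have hex : ∃ n, ¬ (40 * (K * g) * 10 ^ n ≤ 1 ∧ La x b d n ≤ K) := by
    obtain ⟨n, hn⟩ := pow_unbounded_of_one_lt (1 / (40 * (K * g))) (show (1 : ℝ) < 10 by norm_num)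
    refine ⟨n, fun hc => ?_⟩
    have h1 : 1 < 40 * (K * g) * 10 ^ n := by
      rw [div_lt_iff₀ (by positivity)] at hn
      linarith
    linarith [hc.1]
  have hn0 : Nat.find hex ≠ 0 := by
    intro h0
    have h1 := Nat.find_spec hex
    rw [h0] at h1
    apply h1
    refine ⟨by rw [pow_zero, mul_one]; exact hbase, ?_⟩
    unfold La
    rw [od_zero h, Nat.lcm_one_right]
    exact hdK
  obtain ⟨z, hz⟩ : ∃ z, Nat.find hex = z + 1 := ⟨Nat.find hex - 1, by omega⟩
  have hzp : 40 * (K * g) * 10 ^ z ≤ 1 ∧ La x b d z ≤ K := by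
    have := Nat.find_min hex (show z < Nat.find hex by omega)
    exact not_not.1 this
  have hzn := Nat.find_spec hex
  rw [hz] at hzn
  obtain ⟨hz1, hz2⟩ := hzp
  have hLz := La_pos h hdpos z
  have hKv : K ≤ (10 ^ v) ^ 2 := by
    have h1 := od_le_ten h v
    have h2 : od x b v * 10 ^ v ≤ 10 ^ v * 10 ^ v := Nat.mul_le_mul_right _ h1
    have h3 : (10 ^ v) ^ 2 = 10 ^ v * 10 ^ v := by ring
    omega
  have hKv' : ∀ n, v ≤ n → K ≤ 100 ^ n := by
    intro n hn
    have h1 : (10 ^ v) ^ 2 = 100 ^ v := by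
      rw [← pow_mul, mul_comm, pow_mul]
      norm_num
    rw [h1] at hKv
    exact hKv.trans (Nat.pow_le_pow_right (by norm_num) hn)
  by_cases hβ : K < La x b d (z + 1)
  · have h1 := La_succ_le h hdpos z
    have hvz : v ≤ z := by
      by_contra hc
      have h2 : La x b d (z + 1) ≤ La x b d v :=
        Nat.le_of_dvd hLv (La_mono h (by omega))
      omega
    have h3 : La x b d z ≤ 100 ^ z := hz2.trans (hKv' z hvz)
    have := case_beta h hdpos hco hg.symm hg0 hK hdK hz1 hA hz2 h3 (by omega)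
    linarith
  · have hα : 1 ≤ 400 * (K * g) * 10 ^ z := by
      by_contra hc
      apply hzn
      refine ⟨?_, by omega⟩
      rw [pow_succ]
      linarith
    by_cases hz3 : La x b d z ≤ 100 ^ z
    · have := case_alpha2 h hdpos hco hg.symm hg0 hK hdK hz1 hA hz2 hz3 hα
      linarith
    · have hzv : z ≤ v := by
        by_contra hc
        exact hz3 (hz2.trans (hKv' z (by omega)))
      have hv3 : (La x b d v : ℝ) * g ≤ 5 / 10 ^ v := by
        have h1 : (La x b d v : ℝ) ≤ D := by exact_mod_cast hLvD'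
        exact (mul_le_mul_of_nonneg_right h1 hg0.le).trans hDg
      have := case_alpha1 h hdpos hco hg.symm hg0 hK hdK hz1 hA (by omega) hzv hv10 hKv hv3 hα
      linarith

end Pool.Agent.H.MP_40bd32_nt.helper88
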