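import Pool.Agent.H.MP_40bd32_nt.helper88.Ends

set_option autoImplicit false

open N4baffcff

namespace Pool.Agent.H.MP_40bd32_nt.helper88

theorem log_ten_le : Real.log 10 ≤ 3 := by
  have h1 : Real.log 10 ≤ Real.log (2 ^ 4) := Real.log_le_log (by norm_num) (by norm_num)
  rw [Real.log_pow] at h1
  have h2 := Real.log_two_lt_d9
  push_cast at h1
  linarith

theorem rpow_neg_ge {z : ℝ} (hz : 0 ≤ z) : 1 - 3 * z ≤ (10 : ℝ) ^ (-z) := by
  rw [Real.rpow_def_of_pos (by norm_num)]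
  have h1 := Real.add_one_le_exp (Real.log 10 * -z)
  have h2 := mul_le_mul_of_nonneg_right log_ten_le hz
  linarith

/-- For `k` in a progression along which `x^k` is almost multiplied by a power of ten, the first
`v` digits of `x^k` take at most three values. -/
theorem top_values {x d v T k0 : ℕ} {P : ℤ} {ε : ℝ} (hx2 : 2 ≤ x)
    (hε : |(d : ℝ) * Real.logb 10 x - P| ≤ ε) (hs : 20 * (T : ℝ) * 10 ^ (v + 1) * ε ≤ 1) :
    ∃ s : Finset ℕ, s.card ≤ 3 ∧ ∀ t < T, v + 1 ≤ len (x ^ (k0 + d * t)) →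
      top (v + 1) (x ^ (k0 + d * t)) ∈ s := by
  classical
  set α := Real.logb 10 x with hα
  have hx0 : (0 : ℝ) < x := by exact_mod_cast (by omega : 0 < x)
  have hε0 : 0 ≤ ε := le_trans (abs_nonneg _) hε
  have h10 : (0 : ℝ) < 10 := by norm_num
  have hxα : (10 : ℝ) ^ α = x := by
    rw [hα]
    exact Real.rpow_logb h10 (by norm_num) hx0
  set η := (T : ℝ) * ε with hη
  have hη0 : 0 ≤ η := by positivity
  have hηs : 20 * (10 : ℝ) ^ (v + 1) * η ≤ 1 := by rw [hη]; linarith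
  have hp1 : (1 : ℝ) ≤ 10 ^ (v + 1) := one_le_pow₀ (by norm_num)
  have hη1 : 20 * η ≤ 1 := by nlinarith
  set y0 := (k0 : ℝ) * α - η with hy0
  set y1 := (k0 : ℝ) * α + η with hy1
  set E := ⌊y1⌋ with hE
  have hE1 : (E : ℝ) ≤ y1 := Int.floor_le y1
  have hE2 : y1 < E + 1 := Int.lt_floor_add_one y1
  set b0 : ℝ := 10 ^ (y0 - ((E : ℝ) - (v + 1) + 1)) with hb0
  refine ⟨{10 ^ (v + 1) - 1, ⌊b0⌋₊, ⌊b0⌋₊ + 1}, Finset.card_le_three, fun t ht hv => ?_⟩
  set m := x ^ (k0 + d * t) with hm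
  have hm0 : m ≠ 0 := by positivity
  set R := top (v + 1) m with hR
  set y := (k0 : ℝ) * α + t * ((d : ℝ) * α - P) with hy
  have hdrift : |(t : ℝ) * ((d : ℝ) * α - P)| ≤ η := by
    rw [abs_mul, hη]
    have h1 : |(t : ℝ)| ≤ T := by
      rw [abs_of_nonneg (by positivity)]
      exact_mod_cast ht.le
    exact mul_le_mul h1 hε (abs_nonneg _) (by positivity)
  have hyy := abs_le.1 hdrift
  have hmy : (m : ℝ) = 10 ^ (y + t * P) := by
    rw [hm]
    push_cast
    rw [← hxα, ← Real.rpow_natCast, ← Real.rpow_mul h10.le]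
    congr 1
    rw [hy]
    push_cast
    ring
  set l := len m - (v + 1) with hl
  set e : ℤ := (l : ℤ) - t * P with he
  set u := y - e with hu
  have hmu : (m : ℝ) = 10 ^ u * 10 ^ l := by
    rw [hmy, ← Real.rpow_natCast, ← Real.rpow_add h10]
    congr 1
    rw [hu, he]
    push_cast
    ring
  have hpl : (0 : ℝ) < 10 ^ l := by positivity
  have hR1 : (R : ℝ) ≤ 10 ^ u := by
    have h1 := top_mul_le (v + 1) m
    have h2 : (R : ℝ) * 10 ^ l ≤ m := by exact_mod_cast h1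
    rw [hmu] at h2
    exact le_of_mul_le_mul_right h2 hpl
  have hR2 : (10 : ℝ) ^ u < R + 1 := by
    have h1 := lt_top_mul (v + 1) m
    have h2 : (m : ℝ) < (R + 1) * 10 ^ l := by exact_mod_cast h1
    rw [hmu] at h2
    exact lt_of_mul_lt_mul_right h2 hpl.le
  have hR3 : 10 ^ v ≤ R := le_top hm0 hv
  have hR4 : R < 10 ^ (v + 1) := top_lt hv
  have hR3' : (10 : ℝ) ^ (v : ℝ) ≤ R := by
    rw [Real.rpow_natCast]
    exact_mod_cast hR3
  have hR4' : (R : ℝ) + 1 ≤ 10 ^ ((v : ℝ) + 1) := by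
    have : (10 : ℝ) ^ ((v : ℝ) + 1) = 10 ^ (v + 1) := by
      rw [← Real.rpow_natCast]
      push_cast
      rfl
    rw [this]
    exact_mod_cast hR4
  have hu1 : (v : ℝ) ≤ u := (Real.rpow_le_rpow_left_iff (by norm_num)).1 (hR3'.trans hR1)
  have hu2 : u < v + 1 := (Real.rpow_lt_rpow_left_iff (by norm_num)).1 (hR2.trans_le hR4')
  have he1 : e ≤ E - v := by
    have h1 : (e : ℝ) < (E - v : ℤ) + 1 := by
      push_cast
      have : (e : ℝ) = y - u := by rw [hu]; ring
      rw [this]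
      have : y ≤ y1 := by rw [hy, hy1]; linarith [hyy.2]
      linarith
    have h2 : e < (E - v) + 1 := by exact_mod_cast h1
    omega
  have he2 : E - v - 1 ≤ e := by
    have h1 : ((E - v - 1 - 1 : ℤ) : ℝ) < e := by
      push_cast
      have : (e : ℝ) = y - u := by rw [hu]; ring
      rw [this]
      have : y1 - 2 * η ≤ y := by rw [hy, hy1]; linarith [hyy.1]
      linarith
    have h2 : E - v - 1 - 1 < e := by exact_mod_cast h1
    omega
  simp only [Finset.mem_insert, Finset.mem_singleton]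
  have hnn : (0 : ℝ) ≤ 10 ^ u := by positivity
  have hkey : (10 : ℝ) ^ u * (3 * (2 * η)) ≤ 1 / 2 := by
    have h1 : (10 : ℝ) ^ u ≤ 10 ^ (v + 1) := by
      have : (10 : ℝ) ^ (v + 1) = 10 ^ ((v : ℝ) + 1) := by
        rw [← Real.rpow_natCast]
        push_cast
        rfl
      rw [this]
      exact Real.rpow_le_rpow_of_exponent_le (by norm_num) hu2.le
    have h2 : (10 : ℝ) ^ u * (3 * (2 * η)) ≤ 10 ^ (v + 1) * (3 * (2 * η)) :=
      mul_le_mul_of_nonneg_right h1 (by positivity)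
    nlinarith
  rcases (by omega : e = E - v ∨ e = E - v - 1) with hc | hc
  · -- main cell
    right
    have hbu : (10 : ℝ) ^ u * (1 - 3 * (2 * η)) ≤ b0 := by
      have h1 : (10 : ℝ) ^ u * 10 ^ (-(2 * η)) ≤ b0 := by
        rw [← Real.rpow_add h10, hb0]
        refine Real.rpow_le_rpow_of_exponent_le (by norm_num) ?_
        rw [hu, hc]
        push_cast
        have : y1 - 2 * η = y0 := by rw [hy0, hy1]; ring
        have h2 : y ≤ y1 := by rw [hy, hy1]; linarith [hyy.2]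
        linarith
      refine le_trans (mul_le_mul_of_nonneg_left (rpow_neg_ge (by positivity)) hnn) h1
    have hb1 : b0 ≤ 10 ^ u := by
      rw [hb0]
      refine Real.rpow_le_rpow_of_exponent_le (by norm_num) ?_
      rw [hu, hc]
      push_cast
      have : y0 ≤ y := by rw [hy, hy0]; linarith [hyy.1]
      linarith
    have hb2 : (10 : ℝ) ^ u ≤ b0 + 1 / 2 := by linarith
    have hb00 : 0 ≤ b0 := by rw [hb0]; positivity
    have f1 : (⌊b0⌋₊ : ℝ) ≤ b0 := Nat.floor_le hb00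
    have f2 : b0 < ⌊b0⌋₊ + 1 := Nat.lt_floor_add_one b0
    have g1 : (R : ℝ) < ⌊b0⌋₊ + 1 + 1 := by linarith
    have g2 : (⌊b0⌋₊ : ℝ) < R + 1 := by linarith
    have g1' : R < ⌊b0⌋₊ + 1 + 1 := by exact_mod_cast g1
    have g2' : ⌊b0⌋₊ < R + 1 := by exact_mod_cast g2
    omega
  · left
    have hlow : (v : ℝ) + 1 - 2 * η ≤ u := by
      rw [hu, hc]
      push_cast
      have : y1 - 2 * η ≤ y := by rw [hy, hy1]; linarith [hyy.1]
      linarith
    have h1 : (10 : ℝ) ^ (v + 1) * (1 - 3 * (2 * η)) ≤ 10 ^ u := by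
      have h2 : (10 : ℝ) ^ (v + 1) * 10 ^ (-(2 * η)) ≤ 10 ^ u := by
        rw [← Real.rpow_natCast, ← Real.rpow_add h10]
        refine Real.rpow_le_rpow_of_exponent_le (by norm_num) ?_
        push_cast
        linarith
      exact le_trans (mul_le_mul_of_nonneg_left (rpow_neg_ge (by positivity)) (by positivity)) h2
    have h3 : (10 : ℝ) ^ (v + 1) - 1 / 2 < R + 1 := by
      nlinarith
    have h4 : ((10 ^ (v + 1) : ℕ) : ℝ) < ((R + 1 + 1 : ℕ) : ℝ) := by
      push_cast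
      linarith
    have h5 : 10 ^ (v + 1) < R + 1 + 1 := by exact_mod_cast h4
    omega

end Pool.Agent.H.MP_40bd32_nt.helper88
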