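import Pool.Agent.H.MP_40bd32_nt.helper88.Ord
import Pool.Agent.H.MP_40bd32_nt.helper88.Tops

set_option autoImplicit false

open N4baffcff

namespace Pool.Agent.H.MP_40bd32_nt.helper88

theorem two_le_log_ten : 2 ≤ Real.log 10 := by
  have h1 : Real.log (2 ^ 3) ≤ Real.log 10 := Real.log_le_log (by norm_num) (by norm_num)
  rw [Real.log_pow] at h1
  have h2 := Real.log_two_gt_d9
  push_cast at h1
  linarith

theorem near_aux {m j : ℕ} (hm : 1 ≤ m) (hj : j + 1 ≤ len m) :
    Real.logb 10 (top (j + 1) m) ≤ Real.logb 10 m - ((len m : ℝ) - (j + 1)) ∧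
    Real.logb 10 m - ((len m : ℝ) - (j + 1)) ≤ Real.logb 10 (top (j + 1) m) + 5 / 10 ^ (j + 1) := by
  set R := top (j + 1) m with hR
  have hR0 : 10 ^ j ≤ R := le_top (by omega) hj
  have hRpos : 0 < R := lt_of_lt_of_le (by positivity) hR0
  have hRr : (0 : ℝ) < R := by exact_mod_cast hRpos
  have hmr : (0 : ℝ) < m := by exact_mod_cast hm
  have h1 := top_mul_le (j + 1) m
  have h2 := lt_top_mul (j + 1) m
  set l := len m - (j + 1) with hl
  have hlr : (l : ℝ) = (len m : ℝ) - (j + 1) := by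
    rw [hl, Nat.cast_sub hj]
    push_cast
    ring
  have h1r : (R : ℝ) * 10 ^ l ≤ m := by exact_mod_cast h1
  have h2r : (m : ℝ) < (R + 1) * 10 ^ l := by exact_mod_cast h2
  have e1 : Real.logb 10 ((R : ℝ) * 10 ^ l) = Real.logb 10 R + l := by
    rw [Real.logb_mul hRr.ne' (by positivity), Real.logb_pow]
    rw [Real.logb_self_eq_one (by norm_num), mul_one]
  have e2 : Real.logb 10 (((R : ℝ) + 1) * 10 ^ l) = Real.logb 10 (R + 1) + l := by
    rw [Real.logb_mul (by positivity) (by positivity), Real.logb_pow]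
    rw [Real.logb_self_eq_one (by norm_num), mul_one]
  have h3 : Real.logb 10 R + l ≤ Real.logb 10 m := by
    rw [← e1]
    exact Real.logb_le_logb_of_le (by norm_num) (by positivity) h1r
  have h4 : Real.logb 10 m ≤ Real.logb 10 (R + 1) + l := by
    rw [← e2]
    exact Real.logb_le_logb_of_le (by norm_num) hmr h2r.le
  rw [hlr] at h3 h4
  have h5 : Real.logb 10 ((R : ℝ) + 1) ≤ Real.logb 10 R + 5 / 10 ^ (j + 1) := by
    have h6 : Real.logb 10 ((R : ℝ) + 1) - Real.logb 10 R = Real.log (1 + 1 / R) / Real.log 10 := by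
      unfold Real.logb
      rw [← sub_div, ← Real.log_div (by positivity) hRr.ne']
      congr 2
      field_simp
    have h7 : Real.log (1 + 1 / (R : ℝ)) ≤ 1 / R := by
      have := Real.log_le_sub_one_of_pos (show (0 : ℝ) < 1 + 1 / R by positivity)
      linarith
    have h8 : Real.log (1 + 1 / (R : ℝ)) / Real.log 10 ≤ (1 / R) / 2 := by
      have hl2 := two_le_log_ten
      have hnn : (0 : ℝ) ≤ 1 / R := by positivity
      calc Real.log (1 + 1 / (R : ℝ)) / Real.log 10 ≤ (1 / R) / Real.log 10 :=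
            div_le_div_of_nonneg_right h7 (by linarith)
        _ ≤ (1 / R) / 2 := div_le_div_of_nonneg_left hnn (by norm_num) hl2
    have h9 : (1 / (R : ℝ)) / 2 ≤ 5 / 10 ^ (j + 1) := by
      have h10 : (10 : ℝ) ^ j ≤ R := by exact_mod_cast hR0
      have h11 : (0 : ℝ) < 10 ^ j := by positivity
      have h12 : (5 : ℝ) / 10 ^ (j + 1) = (1 / 10 ^ j) / 2 := by
        rw [pow_succ]
        field_simp
        norm_num
      rw [h12]
      exact div_le_div_of_nonneg_right (one_div_le_one_div_of_le h11 h10) (by norm_num)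
    linarith
  constructor <;> linarith

theorem near_zero {m : ℕ} (hm : 1 ≤ m) :
    (len m : ℝ) - 1 ≤ Real.logb 10 m ∧ Real.logb 10 m ≤ len m := by
  have h1 := lt_pow_len m
  have h2 := pow_len_le (show m ≠ 0 by omega)
  have hmr : (0 : ℝ) < m := by exact_mod_cast hm
  constructor
  · have h3 : (10 : ℝ) ^ len m ≤ 10 * m := by exact_mod_cast h2
    have h4 := Real.logb_le_logb_of_le (b := 10) (by norm_num) (by positivity) h3
    rw [Real.logb_pow, Real.logb_self_eq_one (by norm_num), mul_one,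
      Real.logb_mul (by norm_num) hmr.ne', Real.logb_self_eq_one (by norm_num)] at h4
    linarith
  · have h3 : (m : ℝ) ≤ 10 ^ len m := by exact_mod_cast h1.le
    have h4 := Real.logb_le_logb_of_le (b := 10) (by norm_num) hmr h3
    rw [Real.logb_pow, Real.logb_self_eq_one (by norm_num), mul_one] at h4
    exact h4

/-- equal first `j` digits make the quotient close to a power of ten -/
theorem near {m m' j : ℕ} (hm : 1 ≤ m) (hm' : 1 ≤ m') (hj : j ≤ len m) (hj' : j ≤ len m')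
    (h : top j m = top j m') :
    |Real.logb 10 m' - Real.logb 10 m - (((len m' : ℤ) - (len m : ℤ) : ℤ) : ℝ)| ≤ 5 / 10 ^ j := by
  rcases Nat.eq_zero_or_pos j with rfl | hj0
  · have h1 := near_zero hm
    have h2 := near_zero hm'
    rw [abs_le]
    push_cast
    constructor <;> linarith [h1.1, h1.2, h2.1, h2.2]
  · obtain ⟨i, rfl⟩ : ∃ i, j = i + 1 := ⟨j - 1, by omega⟩
    have h1 := near_aux hm hj
    have h2 := near_aux hm' hj'
    rw [← h] at h2
    rw [abs_le]
    push_cast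
    constructor <;> linarith [h1.1, h1.2, h2.1, h2.2]

theorem le_len_pow {x j k k' : ℕ} (hx : 2 ≤ x) (hkk : k ≤ k') (hl : 10 ^ j ≤ x ^ k) :
    j ≤ len (x ^ k') :=
  le_len_of_pow_le (hl.trans (Nat.pow_le_pow_right (by omega) hkk))

theorem od_dvd_of_top_eq {x b c k k' j : ℕ} (h : Good x b c) (p : IsDecimalPalindrome (x ^ k))
    (p' : IsDecimalPalindrome (x ^ k')) (hkk : k ≤ k') (hl : 10 ^ j ≤ x ^ k)
    (ht : top j (x ^ k) = top j (x ^ k')) : od x b j ∣ k' - k :=
  od_dvd_of_low_eq h hkk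
    (low_eq_of_top_eq p p' (le_len_pow h.hx le_rfl hl) (le_len_pow h.hx hkk hl) ht)

theorem rest_dvd_of_top_eq {x b c k k' j : ℕ} (h : Good x b c) (p : IsDecimalPalindrome (x ^ k))
    (p' : IsDecimalPalindrome (x ^ k')) (hkk : k < k') (hl : 10 ^ j ≤ x ^ k)
    (ht : top j (x ^ k) = top j (x ^ k')) : (10 / b) ^ j ∣ x ^ k :=
  rest_dvd_of_low_eq h hkk
    (low_eq_of_top_eq p p' (le_len_pow h.hx le_rfl hl) (le_len_pow h.hx hkk.le hl) ht)

theorem near_pal {x b c k k' j : ℕ} (h : Good x b c) (p : IsDecimalPalindrome (x ^ k))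
    (p' : IsDecimalPalindrome (x ^ k')) (hkk : k ≤ k') (hl : 10 ^ j ≤ x ^ k)
    (hr : (10 / b) ^ j ∣ x ^ k) (hd : od x b j ∣ k' - k) :
    |((k' - k : ℕ) : ℝ) * Real.logb 10 x
      - (((len (x ^ k') : ℤ) - (len (x ^ k) : ℤ) : ℤ) : ℝ)| ≤ 5 / 10 ^ j := by
  have hx := h.hx
  have hp : ∀ n, 1 ≤ x ^ n := fun n => Nat.one_le_pow _ _ (by omega)
  have l1 : j ≤ len (x ^ k) := le_len_pow hx le_rfl hl
  have l2 : j ≤ len (x ^ k') := le_len_pow hx hkk hl
  have h1 := near (hp k) (hp k') l1 l2 (top_eq_of_low_eq p p' l1 l2 (low_eq_of_od_dvd h hkk hr hd))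
  have e : Real.logb 10 ((x ^ k' : ℕ) : ℝ) - Real.logb 10 ((x ^ k : ℕ) : ℝ)
      = ((k' - k : ℕ) : ℝ) * Real.logb 10 x := by
    push_cast
    rw [Real.logb_pow, Real.logb_pow, Nat.cast_sub hkk]
    ring
  rwa [e] at h1

end Pool.Agent.H.MP_40bd32_nt.helper88
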