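import Pool.Agent.H.MP_40bd32_nt.helper88.Fib

set_option autoImplicit false

open N4baffcff

namespace Pool.Agent.H.MP_40bd32_nt.helper88

variable {x b c : ℕ}

/-- a class of exponents mod the order `od x b w` meets few classes mod `d` -/
theorem occ_class (h : Good x b c) {d : ℕ} (hd : 0 < d) {P : ℤ} (hco : IsCoprime P (d : ℤ)) {g : ℝ}
    (hg : |Real.logb 10 x - P / d| = g) (hg0 : 0 < g) {w K : ℕ}
    (hs : 40 * (K * g) * 10 ^ w ≤ 1) {A : Finset ℕ} (hA : PS x w K A)
    (hr : ∀ k ∈ A, (10 / b) ^ w ∣ x ^ k)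
    (hcl : ∀ k ∈ A, ∀ k' ∈ A, k ≤ k' → od x b w ∣ k' - k) :
    ((A.image (fun k => k % d)).card : ℝ) ≤
      1 + 2 * (6 / 10 ^ w * (La x b d w / od x b w)) := by
  classical
  have hdr : (0 : ℝ) < d := by exact_mod_cast hd
  have ho : 0 < od x b w := od_pos h w
  have hor : (0 : ℝ) < od x b w := by exact_mod_cast ho
  rcases A.eq_empty_or_nonempty with rfl | hne
  · simp only [Finset.image_empty, Finset.card_empty, Nat.cast_zero]
    positivity
  set k0 := A.min' hne with hk0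
  have hk0A : k0 ∈ A := A.min'_mem hne
  have hk0le : ∀ k ∈ A, k0 ≤ k := fun k hk => A.min'_le k hk
  set G : ℕ := Nat.gcd d (od x b w) with hG
  have hGpos : 0 < G := Nat.gcd_pos_of_pos_left _ hd
  have hGr : (0 : ℝ) < G := by exact_mod_cast hGpos
  set e : ℕ → ℤ := fun k => ((k - k0 : ℕ) : ℤ) * P - d * ((len (x ^ k) : ℤ) - (len (x ^ k0) : ℤ))
    with he
  set N : ℝ := 6 / 10 ^ w * (La x b d w / od x b w) with hN
  have hN0 : 0 ≤ N := by positivity
  have hLG : (La x b d w : ℝ) / od x b w = d / G := by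
    have h1 : Nat.gcd d (od x b w) * Nat.lcm d (od x b w) = d * od x b w := Nat.gcd_mul_lcm _ _
    rw [div_eq_div_iff hor.ne' hGr.ne']
    have : (La x b d w : ℝ) * G = d * od x b w := by
      rw [mul_comm]
      exact_mod_cast h1
    exact this
  have hGe : ∀ k ∈ A, (G : ℤ) ∣ e k := by
    intro k hk
    have h1 : (G : ℤ) ∣ ((k - k0 : ℕ) : ℤ) :=
      Int.natCast_dvd_natCast.2 (dvd_trans (Nat.gcd_dvd_right _ _) (hcl k0 hk0A k hk (hk0le k hk)))
    have h2 : (G : ℤ) ∣ (d : ℤ) := Int.natCast_dvd_natCast.2 (Nat.gcd_dvd_left _ _)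
    exact dvd_sub (Dvd.dvd.mul_right h1 _) (Dvd.dvd.mul_right h2 _)
  have heb : ∀ k ∈ A, |((e k / (G : ℤ) : ℤ) : ℝ)| ≤ N := by
    intro k hk
    have p0 := hA k0 hk0A
    have p := hA k hk
    have hn := near_pal h p0.1 p.1 (hk0le k hk) p0.2.1 (hr k0 hk0A) (hcl k0 hk0A k hk (hk0le k hk))
    set D : ℕ := k - k0 with hD
    set M : ℤ := (len (x ^ k) : ℤ) - (len (x ^ k0) : ℤ) with hM
    have hDK : (D : ℝ) ≤ K := by
      have : D ≤ K := by have := p0.2.2 k hk; omega
      exact_mod_cast this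
    obtain ⟨f, hf⟩ := hGe k hk
    have hfe : e k / (G : ℤ) = f := by
      rw [hf]
      exact Int.mul_ediv_cancel_left _ (by exact_mod_cast hGpos.ne')
    rw [hfe]
    have h1 : ((e k : ℤ) : ℝ) = d * (((D : ℝ) * Real.logb 10 x - M) - D * (Real.logb 10 x - P / d)) := by
      have hek : e k = (D : ℤ) * P - d * M := rfl
      rw [hek]
      push_cast
      field_simp
      ring
    have h2 : |((e k : ℤ) : ℝ)| ≤ d * (5 / 10 ^ w + K * g) := by
      rw [h1, abs_mul, abs_of_pos hdr]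
      refine mul_le_mul_of_nonneg_left ?_ hdr.le
      refine (abs_sub _ _).trans ?_
      have h3 : |(D : ℝ) * (Real.logb 10 x - P / d)| ≤ K * g := by
        rw [abs_mul, hg, abs_of_nonneg (by positivity : (0 : ℝ) ≤ D)]
        exact mul_le_mul_of_nonneg_right hDK hg0.le
      linarith
    have h4 : (K : ℝ) * g ≤ 1 / 10 ^ w := by
      rw [le_div_iff₀ (by positivity)]
      have : 0 ≤ (K : ℝ) * g * 10 ^ w := by positivity
      linarith
    have h5 : |((e k : ℤ) : ℝ)| ≤ d * (6 / 10 ^ w) := by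
      refine h2.trans (mul_le_mul_of_nonneg_left ?_ hdr.le)
      have : (6 : ℝ) / 10 ^ w = 5 / 10 ^ w + 1 / 10 ^ w := by ring
      linarith
    rw [hf] at h5
    push_cast at h5
    rw [abs_mul, abs_of_pos hGr] at h5
    rw [hN, hLG]
    have h6 : |(f : ℝ)| ≤ d * (6 / 10 ^ w) / G := by
      rw [le_div_iff₀ hGr]
      linarith
    refine h6.trans (le_of_eq ?_)
    ring
  have hdet : ∀ k ∈ A, ∀ k' ∈ A, e k / (G : ℤ) = e k' / (G : ℤ) → k % d = k' % d := by
    intro k hk k' hk' heq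
    have h1 : e k = e k' := by
      obtain ⟨f, hf⟩ := hGe k hk
      obtain ⟨f', hf'⟩ := hGe k' hk'
      have hG' : (G : ℤ) ≠ 0 := by exact_mod_cast hGpos.ne'
      rw [hf, hf', Int.mul_ediv_cancel_left _ hG', Int.mul_ediv_cancel_left _ hG'] at heq
      rw [hf, hf', heq]
    have h2 : ((k - k0 : ℕ) : ℤ) = (k : ℤ) - k0 := by
      rw [Nat.cast_sub (hk0le k hk)]
    have h3 : ((k' - k0 : ℕ) : ℤ) = (k' : ℤ) - k0 := by
      rw [Nat.cast_sub (hk0le k' hk')]
    have h4 : (d : ℤ) ∣ P * ((k : ℤ) - k') := by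
      refine ⟨(len (x ^ k) : ℤ) - (len (x ^ k') : ℤ), ?_⟩
      simp only [he, h2, h3] at h1
      linear_combination h1
    have h5 : (d : ℤ) ∣ (k : ℤ) - k' := (hco.symm).dvd_of_dvd_mul_left h4
    have h6 : (k' : ℤ) ≡ k [ZMOD d] := (Int.modEq_iff_dvd).2 h5
    have h7 : k' ≡ k [MOD d] := (Int.natCast_modEq_iff).1 h6
    exact h7.symm
  have hcard : (A.image (fun k => k % d)).card ≤ (A.image (fun k => e k / (G : ℤ))).card :=
    card_image_le_of_det hdet
  have hcard2 : (A.image (fun k => e k / (G : ℤ))).card ≤ (Finset.Icc (-⌊N⌋) ⌊N⌋).card := by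
    refine Finset.card_le_card ?_
    intro y hy
    obtain ⟨k, hk, rfl⟩ := Finset.mem_image.1 hy
    have h1 := abs_le.1 (heb k hk)
    rw [Finset.mem_Icc]
    constructor
    · have : -(e k / (G : ℤ)) ≤ ⌊N⌋ := by
        rw [Int.le_floor]
        push_cast
        linarith [h1.1]
      linarith
    · rw [Int.le_floor]
      exact h1.2
  have hfl : 0 ≤ ⌊N⌋ := Int.floor_nonneg.2 hN0
  have hcard3 : (((Finset.Icc (-⌊N⌋) ⌊N⌋).card : ℕ) : ℝ) ≤ 1 + 2 * N := by
    rw [Int.card_Icc]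
    have h1 : (((⌊N⌋ + 1 - -⌊N⌋).toNat : ℕ) : ℤ) = 2 * ⌊N⌋ + 1 := by
      rw [Int.toNat_of_nonneg (by linarith)]
      ring
    have h2 : (((⌊N⌋ + 1 - -⌊N⌋).toNat : ℕ) : ℝ) = 2 * (⌊N⌋ : ℝ) + 1 := by
      rw [← Int.cast_natCast, h1]
      push_cast
      ring
    rw [h2]
    have h3 := Int.floor_le N
    linarith
  have : ((A.image (fun k => k % d)).card : ℝ) ≤ ((Finset.Icc (-⌊N⌋) ⌊N⌋).card : ℕ) := by
    exact_mod_cast hcard.trans hcard2
  exact this.trans hcard3

theorem occ (h : Good x b c) {d : ℕ} (hd : 0 < d) {P : ℤ} (hco : IsCoprime P (d : ℤ)) {g : ℝ}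
    (hg : |Real.logb 10 x - P / d| = g) (hg0 : 0 < g) {w K : ℕ}
    (hs : 40 * (K * g) * 10 ^ w ≤ 1) {A : Finset ℕ} (hA : PS x w K A)
    (hr : ∀ k ∈ A, (10 / b) ^ w ∣ x ^ k) :
    ((A.image (fun k => k % d)).card : ℝ) ≤ 10 ^ w + 12 * La x b d w / 10 ^ w := by
  classical
  have ho : 0 < od x b w := od_pos h w
  have hor : (0 : ℝ) < od x b w := by exact_mod_cast ho
  set B : ℝ := 1 + 2 * (6 / 10 ^ w * (La x b d w / od x b w)) with hB
  have hsub : A.image (fun k => k % d) ⊆ (Finset.range (od x b w)).biUnion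
      (fun r => (A.filter (fun k => k % od x b w = r)).image (fun k => k % d)) := by
    intro y hy
    obtain ⟨k, hk, rfl⟩ := Finset.mem_image.1 hy
    rw [Finset.mem_biUnion]
    exact ⟨k % od x b w, Finset.mem_range.2 (Nat.mod_lt _ ho),
      Finset.mem_image_of_mem (fun k => k % d) (Finset.mem_filter.2 ⟨hk, rfl⟩)⟩
  have h1 : (A.image (fun k => k % d)).card ≤ ∑ r ∈ Finset.range (od x b w),
      ((A.filter (fun k => k % od x b w = r)).image (fun k => k % d)).card :=
    (Finset.card_le_card hsub).trans Finset.card_biUnion_le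
  have h2 : ∀ r ∈ Finset.range (od x b w),
      (((A.filter (fun k => k % od x b w = r)).image (fun k => k % d)).card : ℝ) ≤ B := by
    intro r _
    refine occ_class h hd hco hg hg0 hs (hA.sub (Finset.filter_subset _ _))
      (fun k hk => hr k (Finset.mem_filter.1 hk).1) ?_
    intro k hk k' hk' hkk
    have a := (Finset.mem_filter.1 hk).2
    have a' := (Finset.mem_filter.1 hk').2
    refine (Nat.modEq_iff_dvd' hkk).1 ?_
    show k % od x b w = k' % od x b w
    rw [a, a']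
  have h3 : ((A.image (fun k => k % d)).card : ℝ) ≤ ∑ r ∈ Finset.range (od x b w),
      (((A.filter (fun k => k % od x b w = r)).image (fun k => k % d)).card : ℝ) := by
    exact_mod_cast h1
  have h4 := h3.trans (Finset.sum_le_sum h2)
  rw [Finset.sum_const, Finset.card_range, nsmul_eq_mul] at h4
  have h5 : (od x b w : ℝ) * B = od x b w + 12 * La x b d w / 10 ^ w := by
    rw [hB]
    field_simp
    ring
  rw [h5] at h4
  have h6 : (od x b w : ℝ) ≤ 10 ^ w := by exact_mod_cast od_le_ten h w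
  linarith

end Pool.Agent.H.MP_40bd32_nt.helper88
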