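import Pool.Agent.H.MP_40bd32_nt.helper88.Ends
import Pool.Agent.H.MP_40bd32_nt.helper88.Lte

set_option autoImplicit false

open N4baffcff

namespace Pool.Agent.H.MP_40bd32_nt.helper88

/-- the hypotheses on `b` (the part of ten prime to `x`) and the constant `c` -/
structure Good (x b c : ℕ) : Prop where
  hx : 2 ≤ x
  hb : b = 2 ∨ b = 5 ∨ b = 10
  hcop : Nat.Coprime x b
  hrx : 10 / b ∣ x
  hc0 : 0 < c
  hc4 : c ≤ x ^ 4
  hc : ∀ D j, D ≠ 0 → b ^ j ∣ x ^ D - 1 → b ^ j ∣ c * D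

/-- order of `x` modulo `b^j` -/
noncomputable def od (x b j : ℕ) : ℕ := orderOf ((x : ZMod (b ^ j)))

variable {x b c : ℕ}

theorem Good.b_pos (h : Good x b c) : 0 < b := by rcases h.hb with rfl | rfl | rfl <;> norm_num

theorem Good.two_le_b (h : Good x b c) : 2 ≤ b := by
  rcases h.hb with rfl | rfl | rfl <;> norm_num

theorem Good.b_le (h : Good x b c) : b ≤ 10 := by rcases h.hb with rfl | rfl | rfl <;> norm_num

theorem Good.b_mul (h : Good x b c) : b * (10 / b) = 10 := by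
  rcases h.hb with rfl | rfl | rfl <;> norm_num

theorem Good.hrest (h : Good x b c) {k j : ℕ} (hj : j ≤ k) : (10 / b) ^ j ∣ x ^ k :=
  dvd_trans (pow_dvd_pow _ hj) (pow_dvd_pow_of_dvd h.hrx k)

theorem Good.cop_rest (h : Good x b c) {D : ℕ} (hD : D ≠ 0) : Nat.Coprime (10 / b) (x ^ D - 1) := by
  have h1 : 10 / b ∣ x ^ D := dvd_trans h.hrx (dvd_pow_self x hD)
  have hx1 : 1 ≤ x ^ D := Nat.one_le_pow _ _ (by have := h.hx; omega)
  rw [Nat.coprime_iff_gcd_eq_one, ← Nat.dvd_one]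
  set g := Nat.gcd (10 / b) (x ^ D - 1) with hg
  have h2 : g ∣ x ^ D := dvd_trans (Nat.gcd_dvd_left _ _) h1
  have h3 : g ∣ x ^ D - 1 := Nat.gcd_dvd_right _ _
  have h4 := Nat.dvd_sub h2 h3
  have h5 : x ^ D - (x ^ D - 1) = 1 := by omega
  rwa [h5] at h4

theorem od_dvd_iff (h : Good x b c) (j D : ℕ) : od x b j ∣ D ↔ b ^ j ∣ x ^ D - 1 := by
  unfold od
  rw [orderOf_dvd_iff_pow_eq_one]
  have hx1 : 1 ≤ x ^ D := Nat.one_le_pow _ _ (by have := h.hx; omega)
  rw [← Nat.modEq_iff_dvd' hx1]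
  constructor
  · intro h1
    have h2 : ((x ^ D : ℕ) : ZMod (b ^ j)) = ((1 : ℕ) : ZMod (b ^ j)) := by
      push_cast
      exact h1
    exact ((ZMod.natCast_eq_natCast_iff _ _ _).1 h2).symm
  · intro h1
    have h2 := (ZMod.natCast_eq_natCast_iff _ _ (b ^ j)).2 h1.symm
    push_cast at h2
    exact h2

theorem od_dvd_totient (h : Good x b c) (j : ℕ) : od x b j ∣ Nat.totient (b ^ j) := by
  rw [od_dvd_iff h]
  have hx1 : 1 ≤ x ^ Nat.totient (b ^ j) := Nat.one_le_pow _ _ (by have := h.hx; omega)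
  rw [← Nat.modEq_iff_dvd' hx1]
  exact (Nat.ModEq.pow_totient (Nat.Coprime.pow_right j h.hcop)).symm

theorem tot_pos (h : Good x b c) (j : ℕ) : 0 < Nat.totient (b ^ j) :=
  Nat.totient_pos.2 (Nat.pow_pos h.b_pos)

theorem od_pos (h : Good x b c) (j : ℕ) : 0 < od x b j :=
  Nat.pos_of_dvd_of_pos (od_dvd_totient h j) (tot_pos h j)

theorem od_le (h : Good x b c) (j : ℕ) : od x b j ≤ b ^ j :=
  (Nat.le_of_dvd (tot_pos h j) (od_dvd_totient h j)).trans (Nat.totient_le _)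

theorem od_le_ten (h : Good x b c) (j : ℕ) : od x b j ≤ 10 ^ j :=
  (od_le h j).trans (Nat.pow_le_pow_left h.b_le j)

theorem od_mono (h : Good x b c) {i j : ℕ} (hij : i ≤ j) : od x b i ∣ od x b j := by
  rw [od_dvd_iff h]
  exact dvd_trans (pow_dvd_pow b hij) ((od_dvd_iff h j _).1 dvd_rfl)

theorem od_zero (h : Good x b c) : od x b 0 = 1 := by
  have := od_le h 0
  have h2 := od_pos h 0
  rw [pow_zero] at this
  omega

theorem od_succ_dvd (h : Good x b c) {j : ℕ} (hj : 1 ≤ j) : od x b (j + 1) ∣ b * od x b j := by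
  rw [od_dvd_iff h]
  set y := x ^ od x b j with hy
  have hy1 : b ^ j ∣ y - 1 := (od_dvd_iff h j _).1 dvd_rfl
  have hyp : 1 ≤ y := Nat.one_le_pow _ _ (by have := h.hx; omega)
  have e1 : x ^ (b * od x b j) = y ^ b := by
    rw [mul_comm, pow_mul]
  rw [e1]
  have h1 : ((b : ℤ) ^ j) ∣ (y : ℤ) - 1 := by
    have := Int.natCast_dvd_natCast.2 hy1
    rw [Nat.cast_sub hyp] at this
    push_cast at this
    exact this
  have hb1 : (b : ℤ) ∣ (y : ℤ) - 1 := dvd_trans (dvd_pow_self _ (by omega)) h1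
  have h2 : (b : ℤ) ∣ ∑ i ∈ Finset.range b, (y : ℤ) ^ i := by
    have h3 : (∑ i ∈ Finset.range b, (y : ℤ) ^ i) = (∑ i ∈ Finset.range b, ((y : ℤ) ^ i - 1)) + b := by
      rw [Finset.sum_sub_distrib]
      simp
    rw [h3]
    refine dvd_add (Finset.dvd_sum fun i _ => ?_) dvd_rfl
    have := sub_dvd_pow_sub_pow (y : ℤ) 1 i
    rw [one_pow] at this
    exact dvd_trans hb1 this
  have h4 : (b : ℤ) ^ (j + 1) ∣ (y : ℤ) ^ b - 1 := by
    have h5 := geom_sum_mul (y : ℤ) b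
    rw [← h5, pow_succ, mul_comm]
    exact mul_dvd_mul h2 h1
  have hyb : 1 ≤ y ^ b := Nat.one_le_pow _ _ (by omega)
  have h6 : ((b ^ (j + 1) : ℕ) : ℤ) ∣ ((y ^ b - 1 : ℕ) : ℤ) := by
    rw [Nat.cast_sub hyb]
    push_cast
    exact h4
  exact Int.natCast_dvd_natCast.1 h6

theorem pow_le_mul_od (h : Good x b c) (j : ℕ) : b ^ j ≤ c * od x b j := by
  have h1 : b ^ j ∣ c * od x b j := h.hc _ _ (od_pos h j).ne' ((od_dvd_iff h j _).1 dvd_rfl)
  exact Nat.le_of_dvd (Nat.mul_pos h.hc0 (od_pos h j)) h1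

/-- the common period of `k mod d` and of the last `j` digits of `x^k` -/
noncomputable def La (x b d j : ℕ) : ℕ := Nat.lcm d (od x b j)

theorem La_pos (h : Good x b c) {d : ℕ} (hd : 0 < d) (j : ℕ) : 0 < La x b d j :=
  Nat.lcm_pos hd (od_pos h j)

theorem La_mono (h : Good x b c) {d : ℕ} {i j : ℕ} (hij : i ≤ j) : La x b d i ∣ La x b d j :=
  Nat.lcm_dvd (Nat.dvd_lcm_left _ _) (dvd_trans (od_mono h hij) (Nat.dvd_lcm_right _ _))

theorem La_succ_le (h : Good x b c) {d : ℕ} (hd : 0 < d) (j : ℕ) :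
    La x b d (j + 1) ≤ 10 * La x b d j := by
  rcases Nat.eq_zero_or_pos j with rfl | hj
  · unfold La
    rw [od_zero h, Nat.lcm_one_right, zero_add]
    have h1 : Nat.lcm d (od x b 1) ≤ d * od x b 1 :=
      Nat.le_of_dvd (Nat.mul_pos hd (od_pos h 1)) (Nat.lcm_dvd_mul _ _)
    have h2 := od_le_ten h 1
    rw [pow_one] at h2
    nlinarith
  · have h1 : La x b d (j + 1) ∣ b * La x b d j := by
      unfold La
      refine Nat.lcm_dvd (Dvd.dvd.mul_left (Nat.dvd_lcm_left _ _) _) ?_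
      exact dvd_trans (od_succ_dvd h hj) (Nat.mul_dvd_mul_left b (Nat.dvd_lcm_right _ _))
    have h2 := Nat.le_of_dvd (Nat.mul_pos h.b_pos (La_pos h hd j)) h1
    exact h2.trans (Nat.mul_le_mul_right _ h.b_le)

theorem La_add_le (h : Good x b c) {d : ℕ} (hd : 0 < d) (j i : ℕ) :
    La x b d (j + i) ≤ 10 ^ i * La x b d j := by
  induction i with
  | zero => simp
  | succ i ih =>
    have := La_succ_le h hd (j + i)
    rw [← add_assoc, pow_succ]
    calc La x b d (j + i + 1) ≤ 10 * La x b d (j + i) := this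
      _ ≤ 10 * (10 ^ i * La x b d j) := Nat.mul_le_mul_left _ ih
      _ = 10 ^ i * 10 * La x b d j := by ring

/-- equal last digits from congruent exponents -/
theorem low_eq_of_od_dvd (h : Good x b c) {k k' j : ℕ} (hkk : k ≤ k')
    (h2 : (10 / b) ^ j ∣ x ^ k)
    (hd : od x b j ∣ k' - k) : x ^ k % 10 ^ j = x ^ k' % 10 ^ j := by
  have h1 := (od_dvd_iff h j _).1 hd
  have h3 : x ^ k' - x ^ k = x ^ k * (x ^ (k' - k) - 1) := by
    rw [Nat.mul_sub, mul_one, ← pow_add]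
    congr 2
    omega
  have h4 : 10 ^ j ∣ x ^ k' - x ^ k := by
    rw [h3, ← h.b_mul, mul_comm b, mul_pow]
    exact Nat.mul_dvd_mul h2 h1
  exact (Nat.modEq_iff_dvd' (Nat.pow_le_pow_right (by have := h.hx; omega) hkk)).2 h4

theorem od_dvd_of_low_eq (h : Good x b c) {k k' j : ℕ} (hkk : k ≤ k')
    (he : x ^ k % 10 ^ j = x ^ k' % 10 ^ j) : od x b j ∣ k' - k := by
  rw [od_dvd_iff h]
  have h1 : 10 ^ j ∣ x ^ k' - x ^ k :=
    (Nat.modEq_iff_dvd' (Nat.pow_le_pow_right (by have := h.hx; omega) hkk)).1 he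
  have h2 : b ^ j ∣ x ^ k' - x ^ k :=
    dvd_trans (pow_dvd_pow_of_dvd ⟨10 / b, h.b_mul.symm⟩ j) h1
  have h3 : x ^ k' - x ^ k = x ^ k * (x ^ (k' - k) - 1) := by
    rw [Nat.mul_sub, mul_one, ← pow_add]
    congr 2
    omega
  rw [h3] at h2
  refine (Nat.Coprime.dvd_mul_left ?_).1 h2
  exact Nat.Coprime.pow _ _ h.hcop.symm

theorem rest_dvd_of_low_eq (h : Good x b c) {k k' j : ℕ} (hkk : k < k')
    (he : x ^ k % 10 ^ j = x ^ k' % 10 ^ j) : (10 / b) ^ j ∣ x ^ k := by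
  have h1 : 10 ^ j ∣ x ^ k' - x ^ k :=
    (Nat.modEq_iff_dvd' (Nat.pow_le_pow_right (by have := h.hx; omega) hkk.le)).1 he
  have h2 : (10 / b) ^ j ∣ x ^ k' - x ^ k :=
    dvd_trans (pow_dvd_pow_of_dvd ⟨b, by rw [mul_comm]; exact h.b_mul.symm⟩ j) h1
  have h3 : x ^ k' - x ^ k = x ^ k * (x ^ (k' - k) - 1) := by
    rw [Nat.mul_sub, mul_one, ← pow_add]
    congr 2
    omega
  rw [h3] at h2
  exact (Nat.Coprime.dvd_mul_right (Nat.Coprime.pow_left j (h.cop_rest (by omega)))).1 h2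

theorem top_eq_of_low_eq {v m m' : ℕ} (hp : IsDecimalPalindrome m) (hp' : IsDecimalPalindrome m')
    (hv : v ≤ len m) (hv' : v ≤ len m') (h : m % 10 ^ v = m' % 10 ^ v) :
    top v m = top v m' := by
  rw [top_eq_ofDigits hp, top_eq_ofDigits hp']
  rw [Nat.self_mod_pow_eq_ofDigits_take _ _ (by norm_num),
    Nat.self_mod_pow_eq_ofDigits_take _ _ (by norm_num)] at h
  have hl : (Nat.digits 10 m).take v = (Nat.digits 10 m').take v := by
    refine Nat.ofDigits_inj_of_len_eq (b := 10) (by norm_num) ?_ ?_ ?_ h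
    · rw [List.length_take, List.length_take]
      unfold len at hv hv'
      omega
    · intro d hd
      exact Nat.digits_lt_base (by norm_num) (List.mem_of_mem_take hd)
    · intro d hd
      exact Nat.digits_lt_base (by norm_num) (List.mem_of_mem_take hd)
  rw [hl]

end Pool.Agent.H.MP_40bd32_nt.helper88
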